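import Pool.Agent.P8H72.SC.NTm

set_option autoImplicit false

/-! # Norm disjointness and windows -/

namespace Pool.Agent.P8H72.SC

open Finset Filter Topology
open scoped ComplexOrder InnerProductSpace
open Pool.Agent.R296.SM

noncomputable section

universe u v

section radius

variable {K : Type v} [NormedAddCommGroup K] [InnerProductSpace ℂ K] [CompleteSpace K]

/-- the norm and the numerical radius -/
lemma num_radius (T : K →L[ℂ] K) (C : ℝ) (hC : 0 ≤ C) (h : ∀ ξ : K, ‖ξ‖ ≤ 1 → ‖⟪ξ, T ξ⟫_ℂ‖ ≤ C) : ‖T‖ ≤ 4 * C := by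
  have h1 : ∀ z : K, ‖z‖ ≤ 2 → ‖⟪T z, z⟫_ℂ‖ ≤ 4 * C := by
    intro z hz
    have h2 := h ((1 / 2 : ℂ) • z) (by
      rw [norm_smul]
      norm_num
      linarith)
    rw [map_smul, inner_smul_left, inner_smul_right, norm_mul, norm_mul] at h2
    rw [← norm_inner_symm] at h2
    norm_num at h2
    linarith
  have h3 : ∀ x y : K, ‖x‖ ≤ 1 → ‖y‖ ≤ 1 → ‖⟪T y, x⟫_ℂ‖ ≤ 4 * C := by
    intro x y hx hy
    have h4 := inner_map_polarization T.toLinearMap x y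
    have hI : ‖Complex.I • y‖ ≤ 1 := by rw [norm_smul, Complex.norm_I, one_mul]; exact hy
    have n1 := h1 (x + y) ((norm_add_le _ _).trans (by linarith))
    have n2 := h1 (x - y) ((norm_sub_le _ _).trans (by linarith))
    have n3 := h1 (x + Complex.I • y) ((norm_add_le _ _).trans (by linarith))
    have n4 := h1 (x - Complex.I • y) ((norm_sub_le _ _).trans (by linarith))
    have h5 : ⟪T y, x⟫_ℂ = (⟪T (x + y), x + y⟫_ℂ - ⟪T (x - y), x - y⟫_ℂ +
        Complex.I * ⟪T (x + Complex.I • y), x + Complex.I • y⟫_ℂ -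
        Complex.I * ⟪T (x - Complex.I • y), x - Complex.I • y⟫_ℂ) / 4 := h4
    rw [h5, norm_div, Complex.norm_ofNat, div_le_iff₀ (by norm_num)]
    refine (norm_sub_le _ _).trans ?_
    refine (add_le_add_left ((norm_add_le _ _).trans (add_le_add_left (norm_sub_le _ _) _)) _).trans ?_
    rw [norm_mul, norm_mul, Complex.norm_I, one_mul, one_mul]
    linarith
  refine norm_op_le T _ (by positivity) fun y hy => ?_
  rcases eq_or_ne (T y) 0 with h0 | h0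
  · rw [h0, norm_zero]; positivity
  have hn : 0 < ‖T y‖ := norm_pos_iff.2 h0
  have h4 := h3 (((‖T y‖⁻¹ : ℝ) : ℂ) • T y) y (by
    rw [norm_smul, Complex.norm_real, norm_inv, norm_norm, inv_mul_cancel₀ hn.ne']) hy
  rw [inner_smul_right, norm_mul, Complex.norm_real, norm_inv, norm_norm, inner_self_eq_norm_sq_to_K] at h4
  have h5 : ‖((‖T y‖ : ℂ)) ^ 2‖ = ‖T y‖ ^ 2 := by
    rw [norm_pow, Complex.norm_real, norm_norm]
  have h6 : ‖T y‖⁻¹ * ‖T y‖ ^ 2 = ‖T y‖ := by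
    rw [pow_two, ← mul_assoc, inv_mul_cancel₀ hn.ne', one_mul]
  calc ‖T y‖ = ‖T y‖⁻¹ * ‖((‖T y‖ : ℂ)) ^ 2‖ := by rw [h5, h6]
    _ ≤ _ := h4

end radius

section windows

/-- uniform disjointness with slowly varying weights -/
def DjT (f : ℕ → ℤ) {ι : Type*} (y : ι → ℕ → ℂ) : Prop :=
  ∀ ε : ℝ, 0 < ε → ∃ N₀ : ℕ, ∀ N : ℕ, N₀ ≤ N → ∀ T, SlowT N₀ T → ∀ (θ : ℝ) (i : ι),
    ‖∑ n ∈ Icc 1 N, Wt f θ T n * y i n‖ ≤ ε * N

lemma slow_one (L : ℕ) : SlowT L (fun _ => 1) := ⟨fun _ => by simp, fun _ => by simp⟩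

/-- long averages -/
lemma DjT.long {f : ℕ → ℤ} {ι : Type*} {y : ι → ℕ → ℂ} (h : DjT f y) (ε : ℝ) (hε : 0 < ε) :
    ∃ N₀ : ℕ, ∀ N : ℕ, N₀ ≤ N → ∀ (θ : ℝ) (i : ι),
      ‖∑ n ∈ Icc 1 N, ((f n : ℂ) * Complex.exp (2 * Real.pi * Complex.I * n * θ)) * y i n‖ ≤ ε * N := by
  obtain ⟨N₀, h1⟩ := h ε hε
  refine ⟨N₀, fun N hN θ i => ?_⟩
  have h2 := h1 N hN _ (slow_one N₀) θ i
  unfold Wt at h2
  simpa using h2

/-- moving averages vary slowly -/
lemma slow_mov (c : ℕ → ℂ) (hc : ∀ n, ‖c n‖ ≤ 1) (H L : ℕ) (hL : 2 * L ≤ H) (hH : 1 ≤ H) :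
    SlowT L (fun m => (1 / (H : ℂ)) * ∑ n ∈ Ico (m - H) m, c n) := by
  have hHr : (0 : ℝ) < H := by exact_mod_cast hH
  constructor
  · intro m
    rw [norm_mul, norm_div, norm_one, Complex.norm_natCast, one_div, inv_mul_le_iff₀ hHr, mul_one]
    refine (norm_sum_le _ _).trans ((sum_le_sum fun n _ => hc n).trans ?_)
    rw [sum_const, Nat.card_Ico, nsmul_eq_mul, mul_one]
    exact_mod_cast (by omega : m - (m - H) ≤ H)
  · intro m
    have e1 : ∑ n ∈ Ico (m - H) m, c n - ∑ n ∈ Ico (m + 1 - H) (m + 1), c n =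
        (if H ≤ m then c (m - H) else 0) - c m := by
      have e2 : ∑ n ∈ Ico (m - H) (m + 1), c n = ∑ n ∈ Ico (m - H) m, c n + c m :=
        sum_Ico_succ_top (by omega) _
      split_ifs with h
      · have e3 : ∑ n ∈ Ico (m - H) (m + 1), c n = c (m - H) + ∑ n ∈ Ico (m + 1 - H) (m + 1), c n := by
          have : m + 1 - H = (m - H) + 1 := by omega
          rw [this]
          exact sum_eq_sum_Ico_succ_bot (by omega) _
        linear_combination e3 - e2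
      · have : m + 1 - H = m - H := by omega
        rw [this, e2]
        ring
    rw [← mul_sub, e1, norm_mul, norm_div, norm_one, Complex.norm_natCast]
    have e4 : ‖(if H ≤ m then c (m - H) else 0) - c m‖ ≤ 2 := by
      refine (norm_sub_le _ _).trans ?_
      have : ‖(if H ≤ m then c (m - H) else 0)‖ ≤ 1 := by
        split_ifs
        · exact hc _
        · simp
      linarith [hc m]
    have hLr : 2 * (L : ℝ) ≤ H := by exact_mod_cast hL
    calc (L : ℝ) * (1 / H * ‖(if H ≤ m then c (m - H) else 0) - c m‖) ≤ L * (1 / H * 2) :=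
          mul_le_mul_of_nonneg_left (mul_le_mul_of_nonneg_left e4 (by positivity)) (Nat.cast_nonneg _)
      _ = 2 * L / H := by ring
      _ ≤ 1 := by rw [div_le_one hHr]; exact hLr

/-- **windows** -/
lemma DjT.win {f : ℕ → ℤ} {ι : Type*} {y : ι → ℕ → ℂ} (h : DjT f y) (ε : ℝ) (hε : 0 < ε) :
    ∃ H₀ : ℕ, ∀ H : ℕ, H₀ ≤ H → ∀ N : ℕ, H ≤ N → ∀ (θ : ℝ) (i : ι),
      ∑ n ∈ range N, ‖∑ m ∈ Ioc n (n + H), ((f m : ℂ) * Complex.exp (2 * Real.pi * Complex.I * m * θ)) * y i m‖ ≤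
        ε * H * N := by
  obtain ⟨N₀, h1⟩ := h (ε / 2) (by positivity)
  refine ⟨2 * N₀ + 1, fun H hH N hN θ i => ?_⟩
  obtain ⟨z, hz⟩ : ∃ z : ℕ → ℂ, ∀ m, z m = ((f m : ℂ) * Complex.exp (2 * Real.pi * Complex.I * m * θ)) * y i m :=
    ⟨_, fun _ => rfl⟩
  simp_rw [← hz]
  choose c₀ hc0 hc1 using fun n => Pool.Agent.TH823.MRS.phase (∑ m ∈ Ioc n (n + H), z m)
  obtain ⟨c, hc⟩ : ∃ c : ℕ → ℂ, ∀ n, c n = if n < N then c₀ n else 0 := ⟨_, fun _ => rfl⟩
  have hcb : ∀ n, ‖c n‖ ≤ 1 := by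
    intro n
    rw [hc]
    split_ifs
    · exact hc0 n
    · simp
  have hHr : (0 : ℝ) < H := by exact_mod_cast (by omega : 0 < H)
  have h2 := h1 (N + H) (by omega) _ ((slow_mov c hcb H N₀ (by omega) (by omega))) θ i
  have e1 : ((∑ n ∈ range N, ‖∑ m ∈ Ioc n (n + H), z m‖ : ℝ) : ℂ) =
      H * ∑ m ∈ Icc 1 (N + H), Wt f θ (fun m => (1 / (H : ℂ)) * ∑ n ∈ Ico (m - H) m, c n) m * y i m := by
    have hHc : (H : ℂ) ≠ 0 := by exact_mod_cast hHr.ne'
    have e2 : H * ∑ m ∈ Icc 1 (N + H), Wt f θ (fun m => (1 / (H : ℂ)) * ∑ n ∈ Ico (m - H) m, c n) m * y i m =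
        ∑ m ∈ Icc 1 (N + H), ∑ n ∈ range N, if n < m ∧ m ≤ n + H then c₀ n * z m else 0 := by
      rw [mul_sum]
      refine sum_congr rfl fun m hm => ?_
      rw [mem_Icc] at hm
      have e3 : ∑ n ∈ range N, (if n < m ∧ m ≤ n + H then c₀ n * z m else 0) = (∑ n ∈ Ico (m - H) m, c n) * z m := by
        rw [sum_mul, ← sum_filter]
        have e4 : ∑ n ∈ Ico (m - H) m, c n * z m = ∑ n ∈ (Ico (m - H) m).filter (fun n => n < N), c₀ n * z m := by
          rw [sum_filter]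
          refine sum_congr rfl fun n _ => ?_
          rw [hc]
          split_ifs
          · rfl
          · rw [zero_mul]
        rw [e4]
        refine sum_congr ?_ fun _ _ => rfl
        ext n
        simp only [mem_filter, mem_range, mem_Ico]
        omega
      rw [e3, hz]
      unfold Wt
      field_simp
    rw [e2, sum_comm]
    push_cast
    refine sum_congr rfl fun n hn => ?_
    rw [mem_range] at hn
    rw [← hc1 n, mul_sum, ← sum_filter]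
    refine sum_congr ?_ fun _ _ => rfl
    ext m
    simp only [mem_filter, mem_Icc, mem_Ioc]
    omega
  have e5 : ∑ n ∈ range N, ‖∑ m ∈ Ioc n (n + H), z m‖ =
      H * ‖∑ m ∈ Icc 1 (N + H), Wt f θ (fun m => (1 / (H : ℂ)) * ∑ n ∈ Ico (m - H) m, c n) m * y i m‖ := by
    rw [← Complex.norm_natCast H, ← norm_mul, ← e1, Complex.norm_real,
      Real.norm_of_nonneg (sum_nonneg fun _ _ => norm_nonneg _)]
  rw [e5]
  have hNr : (H : ℝ) ≤ N := by exact_mod_cast hN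
  push_cast at h2
  calc _ ≤ H * (ε / 2 * (N + H)) := mul_le_mul_of_nonneg_left h2 hHr.le
    _ ≤ H * (ε / 2 * (N + N)) := by
        apply mul_le_mul_of_nonneg_left _ hHr.le
        apply mul_le_mul_of_nonneg_left _ (by positivity)
        linarith
    _ = _ := by ring

/-- windows in mean square -/
lemma DjT.win2 {f : ℕ → ℤ} (hf : ∀ n, |f n| ≤ 1) {ι : Type*} {y : ι → ℕ → ℂ} {B : ℝ} (hy : ∀ i n, ‖y i n‖ ≤ B)
    (h : DjT f y) (ε : ℝ) (hε : 0 < ε) :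
    ∃ H₀ : ℕ, ∀ H : ℕ, H₀ ≤ H → ∀ N : ℕ, H ≤ N → ∀ (θ : ℝ) (i : ι),
      ∑ n ∈ range N, ‖∑ m ∈ Ioc n (n + H), ((f m : ℂ) * Complex.exp (2 * Real.pi * Complex.I * m * θ)) * y i m‖ ^ 2 ≤
        ε * H ^ 2 * N := by
  by_cases hι : Nonempty ι
  swap
  · exact ⟨0, fun H _ N _ θ i => absurd ⟨i⟩ hι⟩
  have hB : 0 ≤ B := (norm_nonneg _).trans (hy (Classical.choice hι) 0)
  obtain ⟨H₀, h1⟩ := h.win (ε / (B + 1)) (by positivity)
  refine ⟨H₀, fun H hH N hN θ i => ?_⟩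
  have h2 := h1 H hH N hN θ i
  have h3 : ∀ n, ‖∑ m ∈ Ioc n (n + H), ((f m : ℂ) * Complex.exp (2 * Real.pi * Complex.I * m * θ)) * y i m‖ ≤ H * (B + 1) := by
    intro n
    refine (norm_sum_le _ _).trans ?_
    calc _ ≤ ∑ _m ∈ Ioc n (n + H), (B + 1) := by
          refine sum_le_sum fun m _ => ?_
          rw [norm_mul, norm_mul, norm_exp', mul_one, Complex.norm_intCast]
          have h4 : |(f m : ℝ)| ≤ 1 := by exact_mod_cast hf m
          calc _ ≤ 1 * B := mul_le_mul h4 (hy i m) (norm_nonneg _) zero_le_one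
            _ ≤ _ := by linarith
      _ = _ := by rw [sum_const, Nat.card_Ioc, nsmul_eq_mul, Nat.add_sub_cancel_left]
  calc _ ≤ ∑ n ∈ range N, (H * (B + 1)) * ‖∑ m ∈ Ioc n (n + H), ((f m : ℂ) * Complex.exp (2 * Real.pi * Complex.I * m * θ)) * y i m‖ := by
        refine sum_le_sum fun n _ => ?_
        rw [pow_two]
        exact mul_le_mul_of_nonneg_right (h3 n) (norm_nonneg _)
    _ ≤ (H * (B + 1)) * (ε / (B + 1) * H * N) := by
        rw [← mul_sum]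
        exact mul_le_mul_of_nonneg_left h2 (by positivity)
    _ = _ := by field_simp

end windows

section norm

variable {A : Type u} [NonUnitalCStarAlgebra A] (α : A ≃⋆ₐ[ℂ] A)

/-- disjointness in norm with slowly varying weights -/
def DjN (f : ℕ → ℤ) (x : A) : Prop :=
  ∀ ε : ℝ, 0 < ε → ∃ N₀ : ℕ, ∀ N : ℕ, N₀ ≤ N → ∀ T, SlowT N₀ T → ∀ θ : ℝ,
    ‖∑ n ∈ Icc 1 N, Wt f θ T n • (α ^ n) x‖ ≤ ε * N

variable {α}

lemma DjN.zero (f : ℕ → ℤ) : DjN α f 0 := by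
  intro ε hε
  refine ⟨0, fun N _ T _ θ => ?_⟩
  simp only [map_zero, smul_zero, sum_const_zero, norm_zero]
  positivity

lemma DjN.add {f : ℕ → ℤ} {x y : A} (hx : DjN α f x) (hy : DjN α f y) : DjN α f (x + y) := by
  intro ε hε
  obtain ⟨N₁, h1⟩ := hx (ε / 2) (by positivity)
  obtain ⟨N₂, h2⟩ := hy (ε / 2) (by positivity)
  refine ⟨max N₁ N₂, fun N hN T hT θ => ?_⟩
  simp_rw [map_add, smul_add, sum_add_distrib]
  have e1 := h1 N (le_trans (le_max_left _ _) hN) T (hT.mono (le_max_left _ _)) θ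
  have e2 := h2 N (le_trans (le_max_right _ _) hN) T (hT.mono (le_max_right _ _)) θ
  refine (norm_add_le _ _).trans ?_
  linarith

lemma DjN.smul {f : ℕ → ℤ} {x : A} (c : ℂ) (hx : DjN α f x) : DjN α f (c • x) := by
  intro ε hε
  obtain ⟨N₁, h1⟩ := hx (ε / (‖c‖ + 1)) (by positivity)
  refine ⟨N₁, fun N hN T hT θ => ?_⟩
  have e1 : ∑ n ∈ Icc 1 N, Wt f θ T n • (α ^ n) (c • x) = c • ∑ n ∈ Icc 1 N, Wt f θ T n • (α ^ n) x := by
    rw [smul_sum]
    refine sum_congr rfl fun n _ => ?_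
    rw [map_smul, smul_comm]
  rw [e1, norm_smul]
  calc ‖c‖ * _ ≤ ‖c‖ * (ε / (‖c‖ + 1) * N) := mul_le_mul_of_nonneg_left (h1 N hN T hT θ) (norm_nonneg _)
    _ = (‖c‖ / (‖c‖ + 1)) * (ε * N) := by ring
    _ ≤ 1 * (ε * N) := by
        apply mul_le_mul_of_nonneg_right _ (by positivity)
        rw [div_le_one (by positivity)]
        linarith
    _ = _ := one_mul _

lemma DjN.lim {f : ℕ → ℤ} (hf : ∀ n, |f n| ≤ 1) {x : A} (h : ∀ η : ℝ, 0 < η → ∃ y : A, DjN α f y ∧ ‖x - y‖ ≤ η) :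
    DjN α f x := by
  intro ε hε
  obtain ⟨y, hy, hxy⟩ := h (ε / 2) (by positivity)
  obtain ⟨N₁, h1⟩ := hy (ε / 2) (by positivity)
  refine ⟨N₁, fun N hN T hT θ => ?_⟩
  have e1 : ∑ n ∈ Icc 1 N, Wt f θ T n • (α ^ n) x = ∑ n ∈ Icc 1 N, Wt f θ T n • (α ^ n) y +
      ∑ n ∈ Icc 1 N, Wt f θ T n • (α ^ n) (x - y) := by
    rw [← sum_add_distrib]
    refine sum_congr rfl fun n _ => ?_
    rw [← smul_add, map_sub, add_sub_cancel]
  have e2 : ‖∑ n ∈ Icc 1 N, Wt f θ T n • (α ^ n) (x - y)‖ ≤ ε / 2 * N := by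
    refine (norm_sum_le _ _).trans ?_
    calc _ ≤ ∑ _n ∈ Icc 1 N, ε / 2 := by
          refine sum_le_sum fun n _ => ?_
          rw [norm_smul, norm_pow_apply]
          calc _ ≤ 1 * (ε / 2) := mul_le_mul (Wt_le hf θ hT.1 n) hxy (norm_nonneg _) zero_le_one
            _ = _ := one_mul _
      _ = _ := by rw [sum_const, Nat.card_Icc, nsmul_eq_mul, Nat.add_sub_cancel, mul_comm]
  rw [e1]
  refine (norm_add_le _ _).trans ?_
  have := h1 N hN T hT θ
  linarith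

lemma DjN.closure {f : ℕ → ℤ} (hf : ∀ n, |f n| ≤ 1) {D : Set A} (hD : ∀ u ∈ D, DjN α f u) {x : A}
    (hx : x ∈ closure (Submodule.span ℂ D : Set A)) : DjN α f x := by
  have h1 : ∀ v ∈ Submodule.span ℂ D, DjN α f v := by
    intro v hv
    induction hv using Submodule.span_induction with
    | mem x hx => exact hD x hx
    | zero => exact DjN.zero f
    | add x y _ _ hx hy => exact hx.add hy
    | smul c x _ hx => exact hx.smul c
  refine DjN.lim hf fun η hη => ?_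
  obtain ⟨v, hv, hvu⟩ := Metric.mem_closure_iff.1 hx η hη
  exact ⟨v, h1 v hv, by rw [← dist_eq_norm]; exact hvu.le⟩

/-- all functionals of the unit ball -/
lemma DjN.func {f : ℕ → ℤ} {x : A} (h : DjN α f x) {ι : Type*} (ρ : ι → (A →L[ℂ] ℂ)) (C : ℝ) (hρ : ∀ i, ‖ρ i‖ ≤ C) :
    DjT f (fun i n => ρ i ((α ^ n) x)) := by
  by_cases hι : Nonempty ι
  swap
  · intro ε _
    exact ⟨0, fun N _ T _ θ i => absurd ⟨i⟩ hι⟩
  have hC : 0 ≤ C := (norm_nonneg _).trans (hρ (Classical.choice hι))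
  intro ε hε
  obtain ⟨N₀, h1⟩ := h (ε / (C + 1)) (by positivity)
  refine ⟨N₀, fun N hN T hT θ i => ?_⟩
  have e1 : ∑ n ∈ Icc 1 N, Wt f θ T n * ρ i ((α ^ n) x) = ρ i (∑ n ∈ Icc 1 N, Wt f θ T n • (α ^ n) x) := by
    rw [map_sum]
    exact sum_congr rfl fun n _ => by rw [map_smul, smul_eq_mul]
  rw [e1]
  refine ((ρ i).le_opNorm _).trans ?_
  calc _ ≤ C * (ε / (C + 1) * N) := mul_le_mul (hρ i) (h1 N hN T hT θ) (norm_nonneg _) hC
    _ = (C / (C + 1)) * (ε * N) := by ring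
    _ ≤ 1 * (ε * N) := by
        apply mul_le_mul_of_nonneg_right _ (by positivity)
        rw [div_le_one (by positivity)]
        linarith
    _ = _ := one_mul _

/-- **Norm disjointness** -/
theorem normDj {f : ℕ → ℤ} (hf : ∀ n, |f n| ≤ 1) (hNT : NT f) (x : A)
    (H : ∀ φ : A →L[ℂ] ℂ, Pos φ → (∀ a, φ (α a) = φ a) → RecF α φ x) : DjN α f x := by
  obtain ⟨K, i1, i2, i3, π, hπ⟩ := exists_faithful A
  intro ε hε
  obtain ⟨N₀, h1⟩ := dom (α := α) (π := π) (Ξ := fun ξ : {ξ : K // ‖ξ‖ ≤ 1} => ξ.1) (R := 1) hf hNT (fun ξ => ξ.2) x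
    (fun φ h1 h2 _ => H φ h1 h2) (ε / 4) (by positivity)
  refine ⟨N₀, fun N hN T hT θ => ?_⟩
  rw [← hπ]
  have h2 := num_radius (π (∑ n ∈ Icc 1 N, Wt f θ T n • (α ^ n) x)) (ε / 4 * N) (by positivity) (fun ξ hξ => by
    have e1 : ⟪ξ, π (∑ n ∈ Icc 1 N, Wt f θ T n • (α ^ n) x) ξ⟫_ℂ = ∑ n ∈ Icc 1 N, Wt f θ T n * rr π ξ ((α ^ n) x) := by
      rw [map_sum, _root_.sum_apply, inner_sum]
      refine sum_congr rfl fun n _ => ?_
      rw [map_smul, smul_apply, inner_smul_right]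
      rfl
    rw [e1]
    exact h1 N hN T hT θ ⟨ξ, hξ⟩)
  refine h2.trans (le_of_eq ?_)
  ring

end norm

end

end Pool.Agent.P8H72.SC
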