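import Pool.Agent.P8H72.SC.Comm

set_option autoImplicit false

/-! # Finite direct sums of a representation -/

namespace Pool.Agent.P8H72.SC

open Finset Filter Topology
open scoped ComplexOrder InnerProductSpace

noncomputable section

universe u v

variable {A : Type u} [NonUnitalCStarAlgebra A]
variable {K : Type v} [NormedAddCommGroup K] [InnerProductSpace ℂ K] [CompleteSpace K]
variable (π : A →⋆ₙₐ[ℂ] (K →L[ℂ] K)) {ι : Type} [Fintype ι]

/-- the diagonal operator -/
def diag (ι : Type) [Fintype ι] (T : K →L[ℂ] K) : PiLp 2 (fun _ : ι => K) →L[ℂ] PiLp 2 (fun _ : ι => K) :=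
  ((PiLp.continuousLinearEquiv 2 ℂ (fun _ : ι => K)).symm : (ι → K) →L[ℂ] PiLp 2 (fun _ : ι => K)).comp
    ((ContinuousLinearMap.pi fun i => T.comp (ContinuousLinearMap.proj i)).comp
      ((PiLp.continuousLinearEquiv 2 ℂ (fun _ : ι => K)) : PiLp 2 (fun _ : ι => K) →L[ℂ] (ι → K)))

@[simp] lemma diag_apply (T : K →L[ℂ] K) (k : PiLp 2 (fun _ : ι => K)) (i : ι) : diag ι T k i = T (k i) := rfl

/-- the direct sum of copies of the representation -/
def dsum (ι : Type) [Fintype ι] : A →⋆ₙₐ[ℂ] (PiLp 2 (fun _ : ι => K) →L[ℂ] PiLp 2 (fun _ : ι => K)) where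
  toFun a := diag ι (π a)
  map_smul' c a := by
    ext k i
    simp
  map_zero' := by
    ext k i
    simp
  map_add' a b := by
    ext k i
    simp
  map_mul' a b := by
    ext k i
    simp
  map_star' a := by
    rw [ContinuousLinearMap.star_eq_adjoint]
    refine (ContinuousLinearMap.eq_adjoint_iff _ _).mpr ?_
    intro x y
    rw [PiLp.inner_apply, PiLp.inner_apply]
    refine sum_congr rfl fun i _ => ?_
    rw [diag_apply, diag_apply, pi_adj']

@[simp] lemma dsum_apply (a : A) (k : PiLp 2 (fun _ : ι => K)) (i : ι) : dsum π ι a k i = π a (k i) := rfl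

variable {π}

/-- **Dominated vectors**, for finitely many vectors -/
theorem dominated_sum (ζ : ι → K) (η : K) (h : ∀ a, ‖π a η‖ ^ 2 ≤ ∑ i, ‖π a (ζ i)‖ ^ 2) :
    ∃ V : ι → (K →L[ℂ] K), (∀ i k, ‖V i k‖ ≤ ‖k‖) ∧ (∀ i, Comm π (V i)) ∧ ∀ a, π a η = ∑ i, V i (π a (ζ i)) := by
  classical
  obtain ⟨V, hV1, hV2, hV3⟩ := dominated (π := π) (dsum π ι) (WithLp.toLp 2 ζ) η (fun a => by
    rw [← sq_le_sq₀ (norm_nonneg _) (norm_nonneg _)]
    refine (h a).trans (le_of_eq ?_)
    rw [PiLp.norm_sq_eq_of_L2]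
    rfl)
  refine ⟨fun i => V.comp (((PiLp.continuousLinearEquiv 2 ℂ (fun _ : ι => K)).symm : (ι → K) →L[ℂ] PiLp 2 (fun _ : ι => K)).comp
    (ContinuousLinearMap.single ℂ (fun _ : ι => K) i)), fun i k => ?_, fun i a k => ?_, fun a => ?_⟩
  · refine (hV1 _).trans (le_of_eq ?_)
    show ‖WithLp.toLp 2 (Pi.single i k : ι → K)‖ = _
    rw [PiLp.norm_toLp_single]
  · show π a (V (WithLp.toLp 2 (Pi.single i k : ι → K))) = V (WithLp.toLp 2 (Pi.single i (π a k) : ι → K))
    rw [← hV2]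
    congr 1
    ext j
    show π a ((Pi.single i k : ι → K) j) = (Pi.single i (π a k) : ι → K) j
    by_cases hj : j = i
    · subst hj; simp
    · simp [Pi.single_eq_of_ne hj]
  · rw [← hV3]
    show V (dsum π ι a (WithLp.toLp 2 ζ)) = ∑ i, V (WithLp.toLp 2 (Pi.single i (π a (ζ i)) : ι → K))
    rw [← map_sum]
    congr 1
    ext j
    rw [dsum_apply]
    have e1 : (∑ i, WithLp.toLp 2 (Pi.single i (π a (ζ i)) : ι → K)).ofLp j = ∑ i, (Pi.single i (π a (ζ i)) : ι → K) j := by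
      rw [WithLp.ofLp_sum, Finset.sum_apply]
    rw [e1]
    simp

end

end Pool.Agent.P8H72.SC
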