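import Pool.Agent.P8H72.SC.Pos
import Pool.Agent.P8H72.SC.Sum

set_option autoImplicit false

/-! # The functionals below a sum of pure functionals -/

namespace Pool.Agent.P8H72.SC

open Finset Filter Topology
open scoped ComplexOrder InnerProductSpace

noncomputable section

universe u v

variable {A : Type u} [NonUnitalCStarAlgebra A]

/-- pure functionals (zero is allowed) -/
def PureF (ω : A →L[ℂ] ℂ) : Prop := Pos ω ∧ ∀ ψ : A →L[ℂ] ℂ, Pos ψ → Pos (ω - ψ) → ∃ t : ℝ, ψ = (t : ℂ) • ω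

/-- sums of pure functionals -/
def AtomicF (φ : A →L[ℂ] ℂ) : Prop := ∃ ω : ℕ → (A →L[ℂ] ℂ), (∀ i, PureF (ω i)) ∧ HasSum ω φ

section

variable {K : Type v} [NormedAddCommGroup K] [InnerProductSpace ℂ K] [CompleteSpace K]
variable {π : A →⋆ₙₐ[ℂ] (K →L[ℂ] K)}

/-- an operator of the commutant gives a functional -/
lemma exists_func (ζ : K) (T : K →L[ℂ] K) : ∃ ψ : A →L[ℂ] ℂ, ∀ a, ψ a = ⟪ζ, T (π a ζ)⟫_ℂ := by
  let f : A →ₗ[ℂ] ℂ :=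
    { toFun := fun a => ⟪ζ, T (π a ζ)⟫_ℂ
      map_add' := fun a b => by rw [map_add, add_apply, map_add, inner_add_right]
      map_smul' := fun c a => by rw [map_smul, smul_apply, map_smul, inner_smul_right]; rfl }
  refine ⟨f.mkContinuous (‖ζ‖ * ‖T‖ * ‖ζ‖) (fun a => ?_), fun a => rfl⟩
  show ‖⟪ζ, T (π a ζ)⟫_ℂ‖ ≤ _
  refine (norm_inner_le_norm _ _).trans ?_
  have h1 : ‖T (π a ζ)‖ ≤ ‖T‖ * (‖a‖ * ‖ζ‖) := by
    refine (T.le_opNorm _).trans (mul_le_mul_of_nonneg_left ?_ (norm_nonneg _))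
    refine ((π a).le_opNorm _).trans (mul_le_mul_of_nonneg_right ?_ (norm_nonneg _))
    exact NonUnitalStarAlgHom.norm_apply_le π a
  calc ‖ζ‖ * ‖T (π a ζ)‖ ≤ ‖ζ‖ * (‖T‖ * (‖a‖ * ‖ζ‖)) := mul_le_mul_of_nonneg_left h1 (norm_nonneg _)
    _ = _ := by ring

lemma vec_mul {ω : A →L[ℂ] ℂ} {ζ : K} (hζ : ∀ a, ⟪ζ, π a ζ⟫_ℂ = ω a) (a b : A) :
    ω (star a * b) = ⟪π a ζ, π b ζ⟫_ℂ := by
  rw [← hζ, map_mul, pi_adj]
  rfl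

lemma vec_sq {ω : A →L[ℂ] ℂ} {ζ : K} (hζ : ∀ a, ⟪ζ, π a ζ⟫_ℂ = ω a) (a : A) :
    (ω (star a * a)).re = ‖π a ζ‖ ^ 2 := by
  rw [vec_mul hζ, inner_self_eq_norm_sq_to_K]
  norm_cast

lemma comm_mul {ζ : K} {T : K →L[ℂ] K} (hT : Comm π T) (a b : A) :
    ⟪ζ, T (π (star a * b) ζ)⟫_ℂ = ⟪π a ζ, T (π b ζ)⟫_ℂ := by
  rw [pi_adj, hT, map_mul]
  rfl

lemma scalar_01 {ω : A →L[ℂ] ℂ} (hω : PureF ω) {ζ : K} (hζ : ∀ a, ⟪ζ, π a ζ⟫_ℂ = ω a) {T : K →L[ℂ] K}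
    (hT : Comm π T) (h0 : ∀ k, 0 ≤ ⟪k, T k⟫_ℂ) (h1 : ∀ k, ⟪k, T k⟫_ℂ ≤ ⟪k, k⟫_ℂ) :
    ∃ c : ℂ, ∀ a b, ⟪π a ζ, T (π b ζ)⟫_ℂ = c * ⟪π a ζ, π b ζ⟫_ℂ := by
  obtain ⟨ψ, hψ⟩ := exists_func (π := π) ζ T
  obtain ⟨t, ht⟩ := hω.2 ψ (fun a => by
    rw [hψ, comm_mul hT]
    exact h0 _) (fun a => by
    rw [sub_apply, hψ, comm_mul hT, vec_mul hζ, sub_nonneg]
    exact h1 _)
  refine ⟨t, fun a b => ?_⟩
  rw [← comm_mul hT, ← hψ, ht, smul_apply, smul_eq_mul, vec_mul hζ]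

lemma scalar_sa {ω : A →L[ℂ] ℂ} (hω : PureF ω) {ζ : K} (hζ : ∀ a, ⟪ζ, π a ζ⟫_ℂ = ω a) {T : K →L[ℂ] K}
    (hT : Comm π T) (hs : ∀ k l, ⟪T k, l⟫_ℂ = ⟪k, T l⟫_ℂ) :
    ∃ c : ℂ, ∀ a b, ⟪π a ζ, T (π b ζ)⟫_ℂ = c * ⟪π a ζ, π b ζ⟫_ℂ := by
  set r : ℝ := ‖T‖ with hr
  have hr0 : 0 ≤ r := norm_nonneg _
  have hreal : ∀ k, ⟪k, T k⟫_ℂ = ((⟪k, T k⟫_ℂ).re : ℂ) := by
    intro k
    have h1 : (starRingEnd ℂ) ⟪k, T k⟫_ℂ = ⟪k, T k⟫_ℂ := by rw [inner_conj_symm, hs]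
    exact (Complex.conj_eq_iff_re.1 h1).symm
  have hb : ∀ k, |(⟪k, T k⟫_ℂ).re| ≤ r * ‖k‖ ^ 2 := by
    intro k
    refine (Complex.abs_re_le_norm _).trans ((norm_inner_le_norm _ _).trans ?_)
    calc ‖k‖ * ‖T k‖ ≤ ‖k‖ * (r * ‖k‖) := mul_le_mul_of_nonneg_left (T.le_opNorm k) (norm_nonneg _)
      _ = _ := by ring
  have hkk : ∀ k : K, ⟪k, k⟫_ℂ = ((‖k‖ ^ 2 : ℝ) : ℂ) := by
    intro k
    rw [inner_self_eq_norm_sq_to_K]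
    push_cast
    rfl
  set d : ℂ := ((1 / (2 * r + 1) : ℝ) : ℂ) with hd
  have hU : ∀ k, ⟪k, (d • (T + (r : ℂ) • (1 : K →L[ℂ] K))) k⟫_ℂ =
      ((1 / (2 * r + 1) * ((⟪k, T k⟫_ℂ).re + r * ‖k‖ ^ 2) : ℝ) : ℂ) := by
    intro k
    rw [smul_apply, add_apply, smul_apply, inner_smul_right, inner_add_right, inner_smul_right]
    show d * (⟪k, T k⟫_ℂ + (r : ℂ) * ⟪k, k⟫_ℂ) = _
    rw [hkk, hd]
    have hk := hreal k
    generalize ⟪k, T k⟫_ℂ = z at hk ⊢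
    conv_lhs => rw [hk]
    push_cast
    ring
  obtain ⟨c, hc⟩ := scalar_01 hω hζ (T := d • (T + (r : ℂ) • (1 : K →L[ℂ] K))) ((hT.add (Comm.one.smul _)).smul _)
    (fun k => by
      rw [hU, Complex.zero_le_real]
      have := abs_le.1 (hb k)
      apply mul_nonneg (by positivity)
      linarith) (fun k => by
      rw [hU, hkk, Complex.real_le_real]
      have := abs_le.1 (hb k)
      rw [div_mul_eq_mul_div, one_mul, div_le_iff₀ (by positivity)]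
      nlinarith [sq_nonneg ‖k‖])
  refine ⟨(2 * r + 1) * c - r, fun a b => ?_⟩
  have h1 := hc a b
  rw [smul_apply, add_apply, smul_apply, inner_smul_right, inner_add_right, inner_smul_right] at h1
  have h2 : d * (⟪π a ζ, T (π b ζ)⟫_ℂ + (r : ℂ) * ⟪π a ζ, π b ζ⟫_ℂ) = c * ⟪π a ζ, π b ζ⟫_ℂ := h1
  have h3 : (2 * (r : ℂ) + 1) * d = 1 := by
    rw [hd]
    push_cast
    apply mul_one_div_cancel
    have : (2 * r + 1 : ℝ) ≠ 0 := by positivity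
    exact_mod_cast this
  calc ⟪π a ζ, T (π b ζ)⟫_ℂ = ((2 * (r : ℂ) + 1) * d) * (⟪π a ζ, T (π b ζ)⟫_ℂ + (r : ℂ) * ⟪π a ζ, π b ζ⟫_ℂ) -
        (r : ℂ) * ⟪π a ζ, π b ζ⟫_ℂ := by rw [h3]; ring
    _ = (2 * (r : ℂ) + 1) * (c * ⟪π a ζ, π b ζ⟫_ℂ) - (r : ℂ) * ⟪π a ζ, π b ζ⟫_ℂ := by rw [mul_assoc, h2]
    _ = _ := by ring

/-- the commutant acts by scalars on the cyclic subspace of a pure functional -/
lemma scalarOn {ω : A →L[ℂ] ℂ} (hω : PureF ω) {ζ : K} (hζ : ∀ a, ⟪ζ, π a ζ⟫_ℂ = ω a) : ScalarOn π ζ := by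
  intro S hS
  have hadj : ∀ k l, ⟪(star S) k, l⟫_ℂ = ⟪k, S l⟫_ℂ := fun k l => by
    rw [ContinuousLinearMap.star_eq_adjoint, ContinuousLinearMap.adjoint_inner_left]
  have hadj' : ∀ k l, ⟪S k, l⟫_ℂ = ⟪k, (star S) l⟫_ℂ := fun k l => by
    rw [ContinuousLinearMap.star_eq_adjoint, ContinuousLinearMap.adjoint_inner_right]
  obtain ⟨c₁, h1⟩ := scalar_sa hω hζ (hS.add hS.star) (fun k l => by
    rw [add_apply, add_apply, inner_add_left, inner_add_right, hadj, hadj']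
    ring)
  obtain ⟨c₂, h2⟩ := scalar_sa hω hζ ((hS.sub hS.star).smul Complex.I) (fun k l => by
    rw [smul_apply, smul_apply, sub_apply, sub_apply, inner_smul_left, inner_smul_right, inner_sub_left,
      inner_sub_right, hadj, hadj', Complex.conj_I]
    ring)
  refine ⟨(c₁ - Complex.I * c₂) / 2, fun a b => ?_⟩
  have e1 := h1 a b
  have e2 := h2 a b
  rw [add_apply, inner_add_right] at e1
  rw [smul_apply, sub_apply, inner_smul_right, inner_sub_right] at e2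
  have e3 : ⟪π a ζ, S (π b ζ)⟫_ℂ - ⟪π a ζ, (star S) (π b ζ)⟫_ℂ = -Complex.I * (c₂ * ⟪π a ζ, π b ζ⟫_ℂ) := by
    rw [← e2, ← mul_assoc, neg_mul, Complex.I_mul_I, neg_neg, one_mul]
  linear_combination (1 / 2) * e1 + (1 / 2) * e3

/-- the coefficients -/
lemma schur_bdd {ζ₁ ζ₂ : K} (h₁ : ScalarOn π ζ₁) (h₂ : ScalarOn π ζ₂) : ∃ (G : A → A → ℂ) (C R : ℝ), 0 ≤ C ∧ 0 ≤ R ∧
    (∀ a b, ‖G a b‖ ≤ C * (‖a‖ * ‖b‖)) ∧
    ∀ S : K →L[ℂ] K, Comm π S → (∀ a b, ‖⟪π a ζ₁, S (π b ζ₂)⟫_ℂ‖ ≤ ‖π a ζ₁‖ * ‖π b ζ₂‖) →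
      ∃ t : ℂ, ‖t‖ ≤ R ∧ ∀ a b, ⟪π a ζ₁, S (π b ζ₂)⟫_ℂ = t * G a b := by
  have hpi : ∀ (a : A) (k : K), ‖π a k‖ ≤ ‖a‖ * ‖k‖ := fun a k =>
    ((π a).le_opNorm _).trans (mul_le_mul_of_nonneg_right (NonUnitalStarAlgHom.norm_apply_le π a) (norm_nonneg _))
  obtain ⟨S₀, hS₀, hS⟩ := schur h₁ h₂
  refine ⟨fun a b => ⟪π a ζ₁, S₀ (π b ζ₂)⟫_ℂ, ‖ζ₁‖ * ‖S₀‖ * ‖ζ₂‖, ?_⟩
  have hC : ∀ a b, ‖⟪π a ζ₁, S₀ (π b ζ₂)⟫_ℂ‖ ≤ ‖ζ₁‖ * ‖S₀‖ * ‖ζ₂‖ * (‖a‖ * ‖b‖) := by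
    intro a b
    refine (norm_inner_le_norm _ _).trans ?_
    calc ‖π a ζ₁‖ * ‖S₀ (π b ζ₂)‖ ≤ (‖a‖ * ‖ζ₁‖) * (‖S₀‖ * (‖b‖ * ‖ζ₂‖)) :=
          mul_le_mul (hpi _ _) ((S₀.le_opNorm _).trans (mul_le_mul_of_nonneg_left (hpi _ _) (norm_nonneg _)))
            (norm_nonneg _) (by positivity)
      _ = _ := by ring
  by_cases hz : ∀ a b, ⟪π a ζ₁, S₀ (π b ζ₂)⟫_ℂ = 0
  · refine ⟨0, by positivity, le_rfl, hC, fun S hS1 _ => ⟨0, by simp, fun a b => ?_⟩⟩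
    obtain ⟨t, ht⟩ := hS S hS1
    rw [ht, hz, mul_zero, zero_mul]
  · push Not at hz
    obtain ⟨a₀, b₀, hne⟩ := hz
    refine ⟨‖π a₀ ζ₁‖ * ‖π b₀ ζ₂‖ / ‖⟪π a₀ ζ₁, S₀ (π b₀ ζ₂)⟫_ℂ‖, by positivity, by positivity, hC, fun S hS1 hS2 => ?_⟩
    obtain ⟨t, ht⟩ := hS S hS1
    refine ⟨t, ?_, ht⟩
    rw [le_div_iff₀ (norm_pos_iff.2 hne), ← norm_mul, ← ht]
    exact hS2 a₀ b₀

end

/-- the rest of a sum of pure functionals is small and positive -/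
lemma AtomicF.split {φ : A →L[ℂ] ℂ} (h : AtomicF φ) (κ : ℝ) (hκ : 0 < κ) : ∃ (m : ℕ) (ω : Fin m → (A →L[ℂ] ℂ))
    (φ' : A →L[ℂ] ℂ), (∀ i, PureF (ω i)) ∧ Pos φ' ∧ ‖φ'‖ ≤ κ ∧ φ = ∑ i, ω i + φ' := by
  obtain ⟨ω, h1, h2⟩ := h
  have h3 := h2.tendsto_sum_nat
  obtain ⟨m, hm⟩ := ((tendsto_iff_norm_sub_tendsto_zero.1 h3).eventually (gt_mem_nhds hκ)).exists
  refine ⟨m, fun i => ω i, φ - ∑ i ∈ range m, ω i, fun i => h1 i, fun a => ?_, ?_, ?_⟩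
  · have h4 : HasSum (fun i => ω i (star a * a)) (φ (star a * a)) :=
      h2.mapL (ContinuousLinearMap.apply ℂ ℂ (star a * a))
    have h5 := Complex.hasSum_re h4
    have h6 := sum_le_hasSum (range m) (fun i _ => (h1 i).1.re a) h5
    rw [sub_apply, ContinuousLinearMap.sum_apply, Complex.nonneg_iff]
    have h7 := Complex.hasSum_im h4
    have h8 : (φ (star a * a)).im = 0 := by
      have e : (fun i => (ω i (star a * a)).im) = fun _ => 0 := by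
        funext i
        exact (h1 i).1.im a
      rw [e] at h7
      exact h7.unique hasSum_zero
    constructor
    · rw [Complex.sub_re, Complex.re_sum]
      linarith
    · rw [Complex.sub_im, Complex.im_sum, h8]
      have e : ∑ i ∈ range m, (ω i (star a * a)).im = 0 := sum_eq_zero fun i _ => (h1 i).1.im a
      rw [e, sub_zero]
  · rw [norm_sub_rev]
    exact hm.le
  · rw [Fin.sum_univ_eq_sum_range (fun i => ω i) m]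
    abel

end

end Pool.Agent.P8H72.SC
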