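import Mathlib

set_option autoImplicit false

/-! # Dominated vectors and intertwiners -/

namespace Pool.Agent.P8H72.SC

open Finset Filter Topology
open scoped ComplexOrder InnerProductSpace

noncomputable section

universe u v

variable {A : Type u} [NonUnitalCStarAlgebra A]
variable {K : Type v} [NormedAddCommGroup K] [InnerProductSpace ℂ K] [CompleteSpace K]
variable (π : A →⋆ₙₐ[ℂ] (K →L[ℂ] K))

/-- the commutant -/
def Comm (S : K →L[ℂ] K) : Prop := ∀ a k, π a (S k) = S (π a k)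

variable {π}

lemma pi_adj (a : A) (k l : K) : ⟪π a k, l⟫_ℂ = ⟪k, π (star a) l⟫_ℂ := by
  rw [map_star, ContinuousLinearMap.star_eq_adjoint, ContinuousLinearMap.adjoint_inner_right]

lemma pi_adj' (a : A) (k l : K) : ⟪π (star a) k, l⟫_ℂ = ⟪k, π a l⟫_ℂ := by
  rw [pi_adj, star_star]

lemma Comm.comp {S T : K →L[ℂ] K} (hS : Comm π S) (hT : Comm π T) : Comm π (S * T) := by
  intro a k
  show π a (S (T k)) = S (T (π a k))
  rw [hS, hT]

lemma Comm.star {S : K →L[ℂ] K} (hS : Comm π S) : Comm π (star S) := by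
  intro a k
  refine ext_inner_left ℂ fun l => ?_
  rw [← pi_adj', ContinuousLinearMap.star_eq_adjoint, ContinuousLinearMap.adjoint_inner_right,
    ContinuousLinearMap.adjoint_inner_right, ← hS, pi_adj']

lemma Comm.add {S T : K →L[ℂ] K} (hS : Comm π S) (hT : Comm π T) : Comm π (S + T) := by
  intro a k
  rw [add_apply, add_apply, map_add, hS, hT]

lemma Comm.sub {S T : K →L[ℂ] K} (hS : Comm π S) (hT : Comm π T) : Comm π (S - T) := by
  intro a k
  rw [sub_apply, sub_apply, map_sub, hS, hT]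

lemma Comm.smul {S : K →L[ℂ] K} (c : ℂ) (hS : Comm π S) : Comm π (c • S) := by
  intro a k
  rw [smul_apply, smul_apply, map_smul, hS]

lemma Comm.one : Comm π (1 : K →L[ℂ] K) := fun _ _ => rfl

lemma Comm.zero : Comm π (0 : K →L[ℂ] K) := by
  intro a k
  simp

variable (π)

/-- the orbit map -/
def orb (ζ : K) : A →ₗ[ℂ] K where
  toFun a := π a ζ
  map_add' a b := by rw [map_add, add_apply]
  map_smul' c a := by rw [map_smul, smul_apply, RingHom.id_apply]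

/-- the cyclic subspace -/
def Cyc (ζ : K) : Submodule ℂ K := (LinearMap.range (orb π ζ)).topologicalClosure

variable {π}

lemma mem_Cyc (ζ : K) (a : A) : π a ζ ∈ Cyc π ζ :=
  Submodule.le_topologicalClosure _ ⟨a, rfl⟩

instance (ζ : K) : CompleteSpace (Cyc π ζ) :=
  (Submodule.isClosed_topologicalClosure _).completeSpace_coe

lemma Cyc_inv (ζ : K) (a : A) {k : K} (hk : k ∈ Cyc π ζ) : π a k ∈ Cyc π ζ := by
  have h1 : Set.MapsTo (π a) (LinearMap.range (orb π ζ) : Set K) (LinearMap.range (orb π ζ) : Set K) := by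
    rintro _ ⟨b, rfl⟩
    exact ⟨a * b, by show π (a * b) ζ = π a (π b ζ); rw [map_mul]; rfl⟩
  exact h1.closure (π a).continuous hk

/-- two vectors equal against the cyclic subspace -/
lemma Cyc_ext (ζ : K) {x y : K} (hx : x ∈ Cyc π ζ) (hy : y ∈ Cyc π ζ) (h : ∀ a, ⟪π a ζ, x⟫_ℂ = ⟪π a ζ, y⟫_ℂ) : x = y := by
  have h1 : x - y ∈ Cyc π ζ := Submodule.sub_mem _ hx hy
  have h2 : x - y ∈ (Cyc π ζ)ᗮ := by
    unfold Cyc
    rw [Submodule.orthogonal_closure, Submodule.mem_orthogonal]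
    rintro _ ⟨a, rfl⟩
    show ⟪π a ζ, x - y⟫_ℂ = 0
    rw [inner_sub_right, h a, sub_self]
  have h3 : x - y = 0 := by
    have := Submodule.inner_right_of_mem_orthogonal h1 h2
    rwa [inner_self_eq_zero] at this
  exact sub_eq_zero.1 h3

/-- continuous maps equal on the cyclic vectors are equal on the cyclic subspace -/
lemma Cyc_eq {X : Type*} [TopologicalSpace X] [T2Space X] (ζ : K) {f g : K → X} (hf : Continuous f) (hg : Continuous g)
    (h : ∀ a, f (π a ζ) = g (π a ζ)) {k : K} (hk : k ∈ Cyc π ζ) : f k = g k := by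
  have h1 : Set.EqOn f g (closure (LinearMap.range (orb π ζ) : Set K)) := by
    apply Set.EqOn.closure _ hf hg
    rintro _ ⟨b, rfl⟩
    exact h b
  exact h1 hk

/-- the projection on the cyclic subspace commutes with the representation -/
lemma Comm_proj (ζ : K) : Comm π (Cyc π ζ).starProjection := by
  intro a k
  refine (Submodule.eq_starProjection_of_mem_of_inner_eq_zero (Cyc_inv ζ a (Submodule.starProjection_apply_mem _ _)) ?_).symm
  intro w hw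
  rw [← map_sub, pi_adj]
  exact Submodule.starProjection_inner_eq_zero _ _ (Cyc_inv ζ _ hw)

lemma inner_proj (ζ : K) (a : A) (k : K) : ⟪π a ζ, (Cyc π ζ).starProjection k⟫_ℂ = ⟪π a ζ, k⟫_ℂ := by
  have h := Submodule.starProjection_inner_eq_zero k (π a ζ) (mem_Cyc (π := π) ζ a)
  rw [inner_sub_left, sub_eq_zero] at h
  rw [← inner_conj_symm, ← h, inner_conj_symm]

variable (π)

/-- the commutant acts on the cyclic subspace by scalars -/
def ScalarOn (ζ : K) : Prop :=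
  ∀ S : K →L[ℂ] K, Comm π S → ∃ c : ℂ, ∀ a b, ⟪π a ζ, S (π b ζ)⟫_ℂ = c * ⟪π a ζ, π b ζ⟫_ℂ

variable {π}

/-- **Schur's lemma** -/
theorem schur {ζ₁ ζ₂ : K} (h₁ : ScalarOn π ζ₁) (h₂ : ScalarOn π ζ₂) : ∃ S₀ : K →L[ℂ] K, Comm π S₀ ∧
    ∀ S : K →L[ℂ] K, Comm π S → ∃ t : ℂ, ∀ a b, ⟪π a ζ₁, S (π b ζ₂)⟫_ℂ = t * ⟪π a ζ₁, S₀ (π b ζ₂)⟫_ℂ := by
  by_cases hz : ∀ S : K →L[ℂ] K, Comm π S → ∀ a b, ⟪π a ζ₁, S (π b ζ₂)⟫_ℂ = 0
  · exact ⟨0, Comm.zero, fun S hS => ⟨0, fun a b => by rw [hz S hS a b, zero_mul]⟩⟩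
  push Not at hz
  obtain ⟨S, hS, a₀, b₀, hne⟩ := hz
  refine ⟨S, hS, fun S' hS' => ?_⟩
  set P₁ : K →L[ℂ] K := (Cyc π ζ₁).starProjection with hP₁
  set P₂ : K →L[ℂ] K := (Cyc π ζ₂).starProjection with hP₂
  have cP₁ : Comm π P₁ := Comm_proj ζ₁
  have cP₂ : Comm π P₂ := Comm_proj ζ₂
  set X : K →L[ℂ] K := P₁ * S with hX
  set X' : K →L[ℂ] K := P₁ * S' with hX'
  have cX : Comm π X := cP₁.comp hS
  have cX' : Comm π X' := cP₁.comp hS'
  have memX : ∀ k, X k ∈ Cyc π ζ₁ := fun k => Submodule.starProjection_apply_mem _ _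
  have memX' : ∀ k, X' k ∈ Cyc π ζ₁ := fun k => Submodule.starProjection_apply_mem _ _
  obtain ⟨s, hs⟩ := h₁ (X * P₂ * star X) ((cX.comp cP₂).comp cX.star)
  have hY : ∀ u ∈ Cyc π ζ₁, X (P₂ ((star X) u)) = s • u := by
    intro u hu
    refine Cyc_eq ζ₁ (f := fun u => X (P₂ ((star X) u))) (g := fun u => s • u) (by fun_prop) (by fun_prop) (fun b => ?_) hu
    refine Cyc_ext ζ₁ (memX _) (Submodule.smul_mem _ _ (mem_Cyc ζ₁ b)) fun a => ?_
    rw [inner_smul_right]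
    exact hs a b
  have hs0 : s ≠ 0 := by
    intro h0
    apply hne
    have h1 : P₂ ((star X) (π a₀ ζ₁)) = 0 := by
      have h2 := hY (π a₀ ζ₁) (mem_Cyc ζ₁ a₀)
      rw [h0, zero_smul] at h2
      have h3 : ⟪P₂ ((star X) (π a₀ ζ₁)), P₂ ((star X) (π a₀ ζ₁))⟫_ℂ = 0 := by
        rw [hP₂, Submodule.inner_starProjection_left_eq_right, ← hP₂]
        have h4 : P₂ (P₂ ((star X) (π a₀ ζ₁))) = P₂ ((star X) (π a₀ ζ₁)) := by
          rw [hP₂]
          exact Submodule.starProjection_eq_self_iff.2 (Submodule.starProjection_apply_mem _ _)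
        rw [h4, ContinuousLinearMap.star_eq_adjoint, ContinuousLinearMap.adjoint_inner_left,
          ← ContinuousLinearMap.star_eq_adjoint, h2, inner_zero_right]
      rwa [inner_self_eq_zero] at h3
    have h5 : ⟪π a₀ ζ₁, S (π b₀ ζ₂)⟫_ℂ = ⟪π a₀ ζ₁, X (π b₀ ζ₂)⟫_ℂ := (inner_proj ζ₁ a₀ _).symm
    rw [h5, ← ContinuousLinearMap.adjoint_inner_left, ← ContinuousLinearMap.star_eq_adjoint,
      ← inner_conj_symm, ← inner_proj ζ₂ b₀, ← hP₂, h1, inner_zero_right, map_zero]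
  obtain ⟨c, hc⟩ := h₂ (star X * X') (cX.star.comp cX')
  refine ⟨c / s, fun a b => ?_⟩
  have hZ : P₂ ((star X) (X' (π b ζ₂))) = c • π b ζ₂ := by
    refine Cyc_ext ζ₂ (Submodule.starProjection_apply_mem _ _) (Submodule.smul_mem _ _ (mem_Cyc ζ₂ b)) fun d => ?_
    rw [inner_smul_right, hP₂, inner_proj]
    exact hc d b
  have h6 : s • X' (π b ζ₂) = c • X (π b ζ₂) := by
    rw [← hY _ (memX' _), hZ, map_smul]
  have h7 : X' (π b ζ₂) = (c / s) • X (π b ζ₂) := by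
    rw [div_eq_inv_mul, mul_smul, ← h6, smul_smul, inv_mul_cancel₀ hs0, one_smul]
  have h8 : ⟪π a ζ₁, S' (π b ζ₂)⟫_ℂ = ⟪π a ζ₁, X' (π b ζ₂)⟫_ℂ := (inner_proj ζ₁ a _).symm
  have h9 : ⟪π a ζ₁, S (π b ζ₂)⟫_ℂ = ⟪π a ζ₁, X (π b ζ₂)⟫_ℂ := (inner_proj ζ₁ a _).symm
  rw [h8, h9, h7, inner_smul_right]

/-- **Dominated vectors** -/
theorem dominated {L : Type*} [NormedAddCommGroup L] [InnerProductSpace ℂ L] [CompleteSpace L]
    (ϖ : A →⋆ₙₐ[ℂ] (L →L[ℂ] L)) (Z : L) (η : K) (h : ∀ a, ‖π a η‖ ≤ ‖ϖ a Z‖) :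
    ∃ V : L →L[ℂ] K, (∀ k, ‖V k‖ ≤ ‖k‖) ∧ (∀ a k, V (ϖ a k) = π a (V k)) ∧ ∀ a, V (ϖ a Z) = π a η := by
  obtain ⟨M, hM⟩ : ∃ M : Submodule ℂ L, M = Cyc ϖ Z := ⟨_, rfl⟩
  let e : A →ₗ[ℂ] Cyc ϖ Z := (orb ϖ Z).codRestrict _ (fun a => mem_Cyc Z a)
  have hd : DenseRange e := by
    intro x
    rw [mem_closure_iff_seq_limit]
    obtain ⟨y, hy1, hy2⟩ := mem_closure_iff_seq_limit.1 (show (x : L) ∈ closure (LinearMap.range (orb ϖ Z) : Set L) from x.2)
    choose b hb using hy1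
    refine ⟨fun n => e (b n), fun n => ⟨b n, rfl⟩, ?_⟩
    rw [tendsto_subtype_rng]
    refine hy2.congr fun n => ?_
    exact (hb n).symm
  have hn : ∀ a, ‖orb π η a‖ ≤ 1 * ‖e a‖ := by
    intro a
    rw [one_mul]
    exact h a
  let V₀ : Cyc ϖ Z →L[ℂ] K := (orb π η).extendOfNorm e
  have hV₀ : ∀ a, V₀ (e a) = π a η := fun a => LinearMap.extendOfNorm_eq hd ⟨1, hn⟩ a
  have hV₁ : ∀ k, ‖V₀ k‖ ≤ ‖k‖ := fun k => by
    have := LinearMap.norm_extendOfNorm_apply_le hd 1 hn k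
    rwa [one_mul] at this
  let V : L →L[ℂ] K := V₀.comp (Cyc ϖ Z).orthogonalProjectionOnto
  have hVe : ∀ a, V (ϖ a Z) = π a η := by
    intro a
    show V₀ ((Cyc ϖ Z).orthogonalProjectionOnto (ϖ a Z)) = _
    rw [← hV₀ a]
    congr 1
    apply Subtype.ext
    exact Submodule.starProjection_eq_self_iff.2 (mem_Cyc Z a)
  have hVP : ∀ k, V ((Cyc ϖ Z).starProjection k) = V k := by
    intro k
    show V₀ ((Cyc ϖ Z).orthogonalProjectionOnto ((Cyc ϖ Z).starProjection k)) = V₀ ((Cyc ϖ Z).orthogonalProjectionOnto k)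
    congr 1
    apply Subtype.ext
    exact Submodule.starProjection_eq_self_iff.2 (Submodule.starProjection_apply_mem _ _)
  refine ⟨V, fun k => ?_, fun a k => ?_, hVe⟩
  · exact (hV₁ _).trans (Submodule.norm_orthogonalProjectionOnto_apply_le _ _)
  · rw [← hVP (ϖ a k), ← hVP k, ← Comm_proj (π := ϖ) Z a k]
    refine Cyc_eq Z (f := fun k => V (ϖ a k)) (g := fun k => π a (V k)) (by fun_prop) (by fun_prop) (fun b => ?_)
      (Submodule.starProjection_apply_mem _ _)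
    show V (ϖ a (ϖ b Z)) = π a (V (ϖ b Z))
    have e1 : ϖ a (ϖ b Z) = ϖ (a * b) Z := by rw [map_mul]; rfl
    rw [e1, hVe, hVe, map_mul]
    rfl

end

end Pool.Agent.P8H72.SC
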