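import Pool.Agent.P8H72.SC.Atom

set_option autoImplicit false

/-! # The order interval below a sum of pure functionals is totally bounded -/

namespace Pool.Agent.P8H72.SC

open Finset Filter Topology
open scoped ComplexOrder InnerProductSpace

noncomputable section

universe u v

variable {A : Type u} [NonUnitalCStarAlgebra A]

/-- one representation for all positive functionals -/
def GnsAll (A : Type u) [NonUnitalCStarAlgebra A] : Prop := ∃ (K : Type u) (_ : NormedAddCommGroup K)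
  (_ : InnerProductSpace ℂ K) (_ : CompleteSpace K) (π : A →⋆ₙₐ[ℂ] (K →L[ℂ] K)) (ξ : {φ : A →L[ℂ] ℂ // Pos φ} → K),
    (∀ φ a, ⟪ξ φ, π a (ξ φ)⟫_ℂ = φ.1 a) ∧ ∀ φ, ‖ξ φ‖ ^ 2 = ‖φ.1‖

lemma star_mul_inner {K : Type v} [NormedAddCommGroup K] [InnerProductSpace ℂ K] [CompleteSpace K]
    (S T : K →L[ℂ] K) (x y : K) : ⟪x, (star S * T) y⟫_ℂ = ⟪S x, T y⟫_ℂ := by
  show ⟪x, (star S) (T y)⟫_ℂ = _
  rw [ContinuousLinearMap.star_eq_adjoint, ContinuousLinearMap.adjoint_inner_right]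

theorem approx (hA : GnsAll A) {φ : A →L[ℂ] ℂ} (h : AtomicF φ) (κ : ℝ) (hκ : 0 < κ) :
    ∃ (m : ℕ) (G : Fin m → Fin m → A → A → ℂ) (C R : ℝ), 0 ≤ C ∧ 0 ≤ R ∧
      (∀ i j a b, ‖G i j a b‖ ≤ C * (‖a‖ * ‖b‖)) ∧
      ∀ ψ : A →L[ℂ] ℂ, Pos ψ → Pos (φ - ψ) → ∃ t : Fin m → Fin m → ℂ, (∀ i j, ‖t i j‖ ≤ R) ∧
        ∀ a b, ‖ψ (star a * b) - ∑ i, ∑ j, t i j * G i j a b‖ ≤ κ * (‖a‖ * ‖b‖) := by
  obtain ⟨K, i1, i2, i3, π, ξ, hξ1, hξ2⟩ := hA
  have hpi : ∀ (a : A) (k : K), ‖π a k‖ ≤ ‖a‖ * ‖k‖ := fun a k =>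
    ((π a).le_opNorm _).trans (mul_le_mul_of_nonneg_right (NonUnitalStarAlgHom.norm_apply_le π a) (norm_nonneg _))
  obtain ⟨s, hs0, hs1, hs2⟩ : ∃ s : ℝ, 0 < s ∧ s ≤ 1 ∧ s * (2 * Real.sqrt ‖φ‖ + 1) ≤ κ := by
    refine ⟨min 1 (κ / (2 * Real.sqrt ‖φ‖ + 1)), by positivity, min_le_left _ _, ?_⟩
    rw [← le_div_iff₀ (by positivity)]
    exact min_le_right _ _
  obtain ⟨m, ω, φ', h1, h2, h3, h4⟩ := h.split (s ^ 2) (by positivity)
  obtain ⟨ζ, hζ1⟩ : ∃ ζ : Fin m → K, ∀ i a, ⟪ζ i, π a (ζ i)⟫_ℂ = ω i a :=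
    ⟨fun i => ξ ⟨ω i, (h1 i).1⟩, fun i a => hξ1 _ a⟩
  obtain ⟨ζ', hζ'1, hζ's⟩ : ∃ ζ' : K, (∀ a, ⟪ζ', π a ζ'⟫_ℂ = φ' a) ∧ ‖ζ'‖ ≤ s := by
    refine ⟨ξ ⟨φ', h2⟩, fun a => hξ1 _ a, ?_⟩
    rw [← sq_le_sq₀ (norm_nonneg _) hs0.le, hξ2]
    exact h3
  choose G C R hC hR hG hGt using fun i j => schur_bdd (scalarOn (h1 i) (hζ1 i)) (scalarOn (h1 j) (hζ1 j))
  have hle : ∀ (F : Fin m → Fin m → ℝ), (∀ i j, 0 ≤ F i j) → ∀ i j, F i j ≤ ∑ i, ∑ j, F i j := by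
    intro F hF i j
    refine le_trans ?_ (single_le_sum (f := fun i => ∑ j, F i j) (fun i _ => sum_nonneg fun j _ => hF i j) (mem_univ i))
    exact single_le_sum (f := fun j => F i j) (fun j _ => hF i j) (mem_univ j)
  refine ⟨m, G, ∑ i, ∑ j, C i j, ∑ i, ∑ j, R i j, sum_nonneg fun i _ => sum_nonneg fun j _ => hC i j,
    sum_nonneg fun i _ => sum_nonneg fun j _ => hR i j, fun i j a b => ?_, fun ψ hψ hψφ => ?_⟩
  · exact (hG i j a b).trans (mul_le_mul_of_nonneg_right (hle C hC i j) (by positivity))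
  obtain ⟨η, hη1, hηs⟩ : ∃ η : K, (∀ a, ⟪η, π a η⟫_ℂ = ψ a) ∧ ‖η‖ ≤ Real.sqrt ‖φ‖ := by
    refine ⟨ξ ⟨ψ, hψ⟩, fun a => hξ1 _ a, ?_⟩
    apply Real.le_sqrt_of_sq_le
    rw [hξ2]
    exact hψ.norm_le hψφ
  obtain ⟨V, hV1, hV2, hV3⟩ := dominated_sum (π := π) (ι := Option (Fin m)) (fun o => o.elim ζ' ζ) η (fun a => by
    rw [← vec_sq hη1, Fintype.sum_option]
    simp only [Option.elim]
    rw [← vec_sq hζ'1]
    have e1 : ∑ i, ‖π a (ζ i)‖ ^ 2 = ∑ i, (ω i (star a * a)).re := sum_congr rfl fun i _ => (vec_sq (hζ1 i) a).symm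
    rw [e1]
    have e2 := hψφ.re a
    rw [h4, sub_apply, add_apply, _root_.sum_apply, Complex.sub_re, Complex.add_re, Complex.re_sum] at e2
    linarith)
  have hp : ∀ a, π a η = V none (π a ζ') + ∑ i, V (some i) (π a (ζ i)) := by
    intro a
    rw [hV3, Fintype.sum_option]
    rfl
  have hVV : ∀ i j a b, ⟪π a (ζ i), (star (V (some i)) * V (some j)) (π b (ζ j))⟫_ℂ =
      ⟪V (some i) (π a (ζ i)), V (some j) (π b (ζ j))⟫_ℂ := fun i j a b => star_mul_inner _ _ _ _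
  choose t ht1 ht2 using fun i j => hGt i j (star (V (some i)) * V (some j)) ((hV2 _).star.comp (hV2 _)) (fun a b => by
    rw [hVV]
    exact (norm_inner_le_norm _ _).trans (mul_le_mul (hV1 _ _) (hV1 _ _) (norm_nonneg _) (norm_nonneg _)))
  refine ⟨t, fun i j => (ht1 i j).trans (hle R hR i j), fun a b => ?_⟩
  have e1 : ∑ i, ∑ j, t i j * G i j a b = ⟪∑ i, V (some i) (π a (ζ i)), ∑ j, V (some j) (π b (ζ j))⟫_ℂ := by
    rw [sum_inner]
    refine sum_congr rfl fun i _ => ?_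
    rw [inner_sum]
    refine sum_congr rfl fun j _ => ?_
    rw [← ht2, hVV]
  obtain ⟨p, hpd⟩ : ∃ p : A → K, ∀ a, p a = ∑ i, V (some i) (π a (ζ i)) := ⟨_, fun _ => rfl⟩
  have hq : ∀ a, ‖V none (π a ζ')‖ ≤ ‖a‖ * s := fun a =>
    (hV1 _ _).trans ((hpi a ζ').trans (mul_le_mul_of_nonneg_left hζ's (norm_nonneg _)))
  have hpη : ∀ a, ‖π a η‖ ≤ ‖a‖ * Real.sqrt ‖φ‖ := fun a =>
    (hpi a η).trans (mul_le_mul_of_nonneg_left hηs (norm_nonneg _))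
  have hpa : p a = π a η - V none (π a ζ') := by
    rw [hp a, ← hpd a, add_sub_cancel_left]
  have hpn : ‖p a‖ ≤ ‖a‖ * (Real.sqrt ‖φ‖ + s) := by
    rw [hpa]
    refine (norm_sub_le _ _).trans ?_
    rw [mul_add]
    exact add_le_add (hpη a) (hq a)
  have e2 : ψ (star a * b) - ∑ i, ∑ j, t i j * G i j a b =
      ⟪V none (π a ζ'), π b η⟫_ℂ + ⟪p a, V none (π b ζ')⟫_ℂ := by
    rw [e1, vec_mul hη1, ← hpd a, ← hpd b]
    have e3 : ⟪π a η, π b η⟫_ℂ = ⟪V none (π a ζ'), π b η⟫_ℂ + ⟪p a, π b η⟫_ℂ := by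
      rw [← inner_add_left, hp a, hpd a]
    have e4 : ⟪p a, π b η⟫_ℂ = ⟪p a, V none (π b ζ')⟫_ℂ + ⟪p a, p b⟫_ℂ := by
      rw [← inner_add_right, hp b, hpd b]
    rw [e3, e4]
    ring
  rw [e2]
  refine (norm_add_le _ _).trans ?_
  have e5 : ‖⟪V none (π a ζ'), π b η⟫_ℂ‖ ≤ (‖a‖ * s) * (‖b‖ * Real.sqrt ‖φ‖) :=
    (norm_inner_le_norm _ _).trans (mul_le_mul (hq a) (hpη b) (norm_nonneg _) (by positivity))
  have e6 : ‖⟪p a, V none (π b ζ')⟫_ℂ‖ ≤ (‖a‖ * (Real.sqrt ‖φ‖ + s)) * (‖b‖ * s) :=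
    (norm_inner_le_norm _ _).trans (mul_le_mul hpn (hq b) (norm_nonneg _) (by positivity))
  calc _ ≤ (‖a‖ * s) * (‖b‖ * Real.sqrt ‖φ‖) + (‖a‖ * (Real.sqrt ‖φ‖ + s)) * (‖b‖ * s) := add_le_add e5 e6
    _ = (s * (2 * Real.sqrt ‖φ‖ + s)) * (‖a‖ * ‖b‖) := by ring
    _ ≤ κ * (‖a‖ * ‖b‖) := by
        apply mul_le_mul_of_nonneg_right _ (by positivity)
        refine le_trans ?_ hs2
        exact mul_le_mul_of_nonneg_left (by linarith) hs0.le

/-- **Total boundedness**: finitely many colours for the functionals below `φ`, so that functionals of the same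
colour are close in norm -/
theorem colour (hA : GnsAll A) {φ : A →L[ℂ] ℂ} (h : AtomicF φ) (ε : ℝ) (hε : 0 < ε) :
    ∃ (M : ℕ) (col : (A →L[ℂ] ℂ) → Fin M), ∀ ψ ψ' : A →L[ℂ] ℂ, Pos ψ → Pos (φ - ψ) → Pos ψ' → Pos (φ - ψ') →
      col ψ = col ψ' → ∀ c, ‖ψ c - ψ' c‖ ≤ ε * ‖c‖ := by
  classical
  obtain ⟨m, G, C, R, hC, hR, hG, hψ⟩ := approx hA h (ε / 16) (by positivity)
  obtain ⟨δ, hδ0, hδ⟩ : ∃ δ : ℝ, 0 < δ ∧ δ * (16 * (m * m * C + 1)) ≤ ε := by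
    refine ⟨ε / (16 * (m * m * C + 1)), by positivity, ?_⟩
    rw [div_mul_cancel₀]
    positivity
  have hcomp : IsCompact (Metric.closedBall (0 : Fin m → Fin m → ℂ) R) := isCompact_closedBall 0 R
  obtain ⟨T, -, hT⟩ := hcomp.elim_finite_subcover_image (b := Set.univ) (c := fun x => Metric.ball x δ)
    (fun _ _ => Metric.isOpen_ball) (by
      intro x _
      simp only [Set.mem_univ, Set.iUnion_true, Set.mem_iUnion]
      exact ⟨x, Metric.mem_ball_self hδ0⟩)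
  obtain ⟨hTf, hT⟩ := hT
  choose! t ht1 ht2 using hψ
  have hmem : ∀ ψ : A →L[ℂ] ℂ, Pos ψ → Pos (φ - ψ) → ∃ x ∈ T, dist (t ψ) x < δ := by
    intro ψ h1 h2
    have h3 : t ψ ∈ Metric.closedBall (0 : Fin m → Fin m → ℂ) R := by
      rw [mem_closedBall_zero_iff, pi_norm_le_iff_of_nonneg hR]
      intro i
      rw [pi_norm_le_iff_of_nonneg hR]
      exact ht1 ψ h1 h2 i
    have h4 := hT h3
    simp only [Set.mem_iUnion, exists_prop] at h4
    exact h4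
  choose! x hx1 hx2 using hmem
  obtain ⟨M, e⟩ := Finite.exists_equiv_fin (hTf.toFinset : Set (Fin m → Fin m → ℂ))
  obtain ⟨e⟩ := e
  -- at least one colour
  refine ⟨M + 1, fun ψ => if hq : x ψ ∈ (hTf.toFinset : Set (Fin m → Fin m → ℂ)) then (e ⟨x ψ, hq⟩).castSucc else Fin.last M,
    fun ψ ψ' h1 h2 h3 h4 hcol c => ?_⟩
  have hq1 : x ψ ∈ (hTf.toFinset : Set (Fin m → Fin m → ℂ)) := by
    simpa using hx1 ψ h1 h2
  have hq2 : x ψ' ∈ (hTf.toFinset : Set (Fin m → Fin m → ℂ)) := by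
    simpa using hx1 ψ' h3 h4
  simp only [] at hcol
  rw [dif_pos hq1, dif_pos hq2] at hcol
  have hxx : x ψ = x ψ' := by
    have := e.injective (Fin.castSucc_injective _ hcol)
    exact congrArg Subtype.val this
  have htt : dist (t ψ) (t ψ') < 2 * δ := by
    have e1 := hx2 ψ h1 h2
    have e2 := hx2 ψ' h3 h4
    rw [← hxx] at e2
    calc dist (t ψ) (t ψ') ≤ dist (t ψ) (x ψ) + dist (t ψ') (x ψ) := dist_triangle_right _ _ _
      _ < δ + δ := add_lt_add e1 e2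
      _ = _ := by ring
  have hij : ∀ i j, ‖t ψ i j - t ψ' i j‖ ≤ 2 * δ := by
    intro i j
    rw [← dist_eq_norm]
    exact ((dist_le_pi_dist (t ψ i) (t ψ' i) j).trans (dist_le_pi_dist (t ψ) (t ψ') i)).trans htt.le
  have hab : ∀ a b, ‖ψ (star a * b) - ψ' (star a * b)‖ ≤ ε / 4 * (‖a‖ * ‖b‖) := by
    intro a b
    have e1 := ht2 ψ h1 h2 a b
    have e2 := ht2 ψ' h3 h4 a b
    have e3 : ‖∑ i, ∑ j, t ψ i j * G i j a b - ∑ i, ∑ j, t ψ' i j * G i j a b‖ ≤ m * m * (2 * δ * (C * (‖a‖ * ‖b‖))) := by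
      rw [← sum_sub_distrib]
      refine (norm_sum_le _ _).trans ?_
      calc ∑ i, ‖∑ j, t ψ i j * G i j a b - ∑ j, t ψ' i j * G i j a b‖ ≤
          ∑ _i : Fin m, ∑ _j : Fin m, (2 * δ * (C * (‖a‖ * ‖b‖))) := by
            refine sum_le_sum fun i _ => ?_
            rw [← sum_sub_distrib]
            refine (norm_sum_le _ _).trans (sum_le_sum fun j _ => ?_)
            rw [← sub_mul, norm_mul]
            exact mul_le_mul (hij i j) (hG i j a b) (norm_nonneg _) (by positivity)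
        _ = _ := by
            simp only [sum_const, card_univ, Fintype.card_fin, nsmul_eq_mul]
            ring
    have e4 : ψ (star a * b) - ψ' (star a * b) = (ψ (star a * b) - ∑ i, ∑ j, t ψ i j * G i j a b) +
        (∑ i, ∑ j, t ψ i j * G i j a b - ∑ i, ∑ j, t ψ' i j * G i j a b) -
        (ψ' (star a * b) - ∑ i, ∑ j, t ψ' i j * G i j a b) := by ring
    rw [e4]
    refine (norm_sub_le _ _).trans ?_
    have e5 := norm_add_le (ψ (star a * b) - ∑ i, ∑ j, t ψ i j * G i j a b)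
      (∑ i, ∑ j, t ψ i j * G i j a b - ∑ i, ∑ j, t ψ' i j * G i j a b)
    have e6 : (m : ℝ) * m * (2 * δ * (C * (‖a‖ * ‖b‖))) ≤ ε / 8 * (‖a‖ * ‖b‖) := by
      have e7 : (m : ℝ) * m * (2 * δ * (C * (‖a‖ * ‖b‖))) = (2 * δ * (m * m * C)) * (‖a‖ * ‖b‖) := by ring
      rw [e7]
      apply mul_le_mul_of_nonneg_right _ (by positivity)
      have e8 : δ * (16 * (m * m * C + 1)) = 8 * (2 * δ * (m * m * C)) + 16 * δ := by ring
      rw [e8] at hδ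
      linarith
    linarith
  obtain ⟨b, hb1, hb2⟩ := four c
  have e1 : ψ c - ψ' c = ∑ i : Fin 4, Complex.I ^ (i : ℕ) * (ψ (star (b i) * b i) - ψ' (star (b i) * b i)) := by
    conv_lhs => rw [hb2]
    rw [map_sum, map_sum, ← sum_sub_distrib]
    refine sum_congr rfl fun i _ => ?_
    rw [map_smul, map_smul, smul_eq_mul, smul_eq_mul, mul_sub]
  rw [e1]
  refine (norm_sum_le _ _).trans ?_
  calc ∑ i : Fin 4, ‖Complex.I ^ (i : ℕ) * (ψ (star (b i) * b i) - ψ' (star (b i) * b i))‖ ≤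
      ∑ _i : Fin 4, ε / 4 * ‖c‖ := by
        refine sum_le_sum fun i _ => ?_
        rw [norm_mul, norm_pow, Complex.norm_I, one_pow, one_mul]
        refine (hab _ _).trans ?_
        apply mul_le_mul_of_nonneg_left _ (by positivity)
        rw [← pow_two]
        exact hb1 i
    _ = ε * ‖c‖ := by
        simp only [sum_const, card_univ, Fintype.card_fin, nsmul_eq_mul]
        push_cast
        ring

end

end Pool.Agent.P8H72.SC
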