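import Pool.Agent.P8H72.SC.Rec

set_option autoImplicit false

/-! # Weighted averages along the orbit -/

namespace Pool.Agent.P8H72.SC

open Finset Filter Topology
open scoped ComplexOrder InnerProductSpace
open Pool.Agent.R296.SM

noncomputable section

universe u v

/-- slowly varying weights -/
def SlowT (L : ℕ) (T : ℕ → ℂ) : Prop := (∀ n, ‖T n‖ ≤ 1) ∧ ∀ n, (L : ℝ) * ‖T n - T (n + 1)‖ ≤ 1

/-- the twisted weight -/
def Wt (f : ℕ → ℤ) (θ : ℝ) (T : ℕ → ℂ) (n : ℕ) : ℂ :=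
  (f n : ℂ) * Complex.exp (2 * Real.pi * Complex.I * n * θ) * T n

/-- the weights do not correlate with bounded sequences, for most shifts -/
def NT (f : ℕ → ℤ) : Prop := ∀ ε : ℝ, 0 < ε → ∃ K₀ : ℕ, ∀ K : ℕ, K₀ ≤ K → ∃ N₀ : ℕ, ∀ N : ℕ, N₀ ≤ N → ∀ T, SlowT N₀ T →
  ∀ (θ : ℝ) (y : ℕ → ℂ), (∀ n, ‖y n‖ ≤ 1) →
    ∑ k ∈ Icc 1 K, ‖∑ n ∈ Icc 1 N, Wt f θ T n * y (n + k)‖ ≤ ε * K * N

lemma SlowT.mono {L L' : ℕ} {T : ℕ → ℂ} (h : SlowT L' T) (hL : L ≤ L') : SlowT L T :=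
  ⟨h.1, fun n => le_trans (mul_le_mul_of_nonneg_right (by exact_mod_cast hL) (norm_nonneg _)) (h.2 n)⟩

lemma norm_exp' (n : ℕ) (θ : ℝ) : ‖Complex.exp (2 * Real.pi * Complex.I * n * θ)‖ = 1 := by
  have : (2 * Real.pi * Complex.I * n * θ : ℂ) = ((2 * Real.pi * n * θ : ℝ) : ℂ) * Complex.I := by push_cast; ring
  rw [this, Complex.norm_exp_ofReal_mul_I]

lemma Wt_le {f : ℕ → ℤ} (hf : ∀ n, |f n| ≤ 1) (θ : ℝ) {T : ℕ → ℂ} (hT : ∀ n, ‖T n‖ ≤ 1) (n : ℕ) : ‖Wt f θ T n‖ ≤ 1 := by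
  unfold Wt
  rw [norm_mul, norm_mul, norm_exp', mul_one, Complex.norm_intCast]
  exact mul_le_one₀ (by exact_mod_cast hf n) (norm_nonneg _) (hT n)

lemma Wt_conj (f : ℕ → ℤ) (θ : ℝ) (T : ℕ → ℂ) (n : ℕ) :
    (starRingEnd ℂ) (Wt f θ T n) = Wt f (-θ) (fun n => (starRingEnd ℂ) (T n)) n := by
  unfold Wt
  rw [map_mul, map_mul, ← Complex.exp_conj, map_intCast]
  congr 3
  simp only [map_mul, map_ofNat, Complex.conj_ofReal, Complex.conj_I, map_natCast]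
  push_cast
  ring

lemma SlowT.conj {L : ℕ} {T : ℕ → ℂ} (h : SlowT L T) : SlowT L (fun n => (starRingEnd ℂ) (T n)) := by
  refine ⟨fun n => by rw [RCLike.norm_conj]; exact h.1 n, fun n => ?_⟩
  rw [← map_sub, RCLike.norm_conj]
  exact h.2 n

variable {A : Type u} [NonUnitalCStarAlgebra A] {α : A ≃⋆ₐ[ℂ] A} {ι : Type*}
variable {K : Type v} [NormedAddCommGroup K] [InnerProductSpace ℂ K] [CompleteSpace K]
variable {π : A →⋆ₙₐ[ℂ] (K →L[ℂ] K)} {Ξ : ι → K} {R : ℝ}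

/-- the weighted averages -/
def wav (α : A ≃⋆ₐ[ℂ] A) (ρ : A → ℂ) (w : ℕ → ℂ) (N : ℕ) (c : A) : ℂ :=
  (1 / (N : ℂ)) * ∑ n ∈ Icc 1 N, w n * ρ ((α ^ n) c)

lemma rr_bd (hR : ∀ i, ‖Ξ i‖ ≤ R) (i : ι) (n : ℕ) (c : A) : ‖rr π (Ξ i) ((α ^ n) c)‖ ≤ R ^ 2 * ‖c‖ := by
  refine (rr_le π (Ξ i) _).trans ?_
  rw [norm_pow_apply]
  exact mul_le_mul_of_nonneg_right (pow_le_pow_left₀ (norm_nonneg _) (hR i) 2) (norm_nonneg _)

lemma wav_le (hR : ∀ i, ‖Ξ i‖ ≤ R) {w : ℕ → ℂ} (hw : ∀ n, ‖w n‖ ≤ 1) (i : ι) (N : ℕ) (c : A) :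
    ‖wav α (rr π (Ξ i)) w N c‖ ≤ R ^ 2 * ‖c‖ := by
  unfold wav
  rw [norm_mul, norm_div, norm_one, Complex.norm_natCast]
  rcases Nat.eq_zero_or_pos N with rfl | hN
  · simp only [CharP.cast_eq_zero, div_zero, zero_mul]; positivity
  have hNr : (0 : ℝ) < N := by exact_mod_cast hN
  rw [one_div, inv_mul_le_iff₀ hNr]
  refine (norm_sum_le _ _).trans ?_
  calc ∑ n ∈ Icc 1 N, ‖w n * rr π (Ξ i) ((α ^ n) c)‖ ≤ ∑ _n ∈ Icc 1 N, R ^ 2 * ‖c‖ := by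
        refine sum_le_sum fun n _ => ?_
        rw [norm_mul]
        calc _ ≤ 1 * ‖rr π (Ξ i) ((α ^ n) c)‖ := mul_le_mul_of_nonneg_right (hw n) (norm_nonneg _)
          _ ≤ _ := by rw [one_mul]; exact rr_bd hR i n c
    _ = _ := by rw [sum_const, Nat.card_Icc, nsmul_eq_mul, Nat.add_sub_cancel]

lemma wav_add (ξ : K) (w : ℕ → ℂ) (N : ℕ) (a b : A) :
    wav α (rr π ξ) w N (a + b) = wav α (rr π ξ) w N a + wav α (rr π ξ) w N b := by
  unfold wav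
  simp_rw [map_add, rr_add, mul_add, sum_add_distrib, mul_add]

lemma wav_smul (ξ : K) (w : ℕ → ℂ) (N : ℕ) (c : ℂ) (a : A) :
    wav α (rr π ξ) w N (c • a) = c * wav α (rr π ξ) w N a := by
  unfold wav
  rw [mul_left_comm c]
  congr 1
  rw [mul_sum]
  refine sum_congr rfl fun n _ => ?_
  rw [map_smul, rr_smul]
  ring

/-- the limit functional -/
lemma exists_psi (hR : ∀ i, ‖Ξ i‖ ≤ R) (N : ℕ → ℕ) (s : ℕ → ι) (w : ℕ → ℕ → ℂ) (hw : ∀ j n, ‖w j n‖ ≤ 1)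
    (𝒱 : Ultrafilter ℕ) : ∃ ψ : A →L[ℂ] ℂ,
    ∀ c, Tendsto (fun j => wav α (rr π (Ξ (s j))) (w j) (N j) c) 𝒱 (𝓝 (ψ c)) := by
  choose l hl hl2 using fun c : A => exists_ulim 𝒱 (fun j => wav α (rr π (Ξ (s j))) (w j) (N j) c) (R ^ 2 * ‖c‖)
    (fun j => wav_le hR (hw j) _ _ c)
  have hadd : ∀ b c, l (b + c) = l b + l c := by
    intro b c
    refine tendsto_nhds_unique (hl (b + c)) (((hl b).add (hl c)).congr fun j => ?_)
    rw [wav_add]
  have hsmul : ∀ (t : ℂ) c, l (t • c) = t * l c := by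
    intro t c
    refine tendsto_nhds_unique (hl (t • c)) (((hl c).const_mul t).congr fun j => ?_)
    rw [wav_smul]
  let φ₀ : A →ₗ[ℂ] ℂ := { toFun := l, map_add' := hadd, map_smul' := fun t c => by simpa using hsmul t c }
  exact ⟨φ₀.mkContinuous (R ^ 2) hl2, hl⟩

lemma wav_sq (ξ : K) (r : ℕ → ℝ) (N : ℕ) (c : A) (hr : ∀ n, 0 ≤ r n) :
    0 ≤ wav α (rr π ξ) (fun n => (r n : ℂ)) N (star c * c) := by
  unfold wav
  have h1 : ∀ n : ℕ, rr π ξ ((α ^ n) (star c * c)) = ((‖π ((α ^ n) c) ξ‖ ^ 2 : ℝ) : ℂ) := by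
    intro n
    rw [map_mul, map_star, rr_mul, inner_self_eq_norm_sq_to_K]
    norm_cast
  simp_rw [h1]
  have h2 : (1 / (N : ℂ)) * ∑ n ∈ Icc 1 N, (r n : ℂ) * ((‖π ((α ^ n) c) ξ‖ ^ 2 : ℝ) : ℂ) =
      (((1 / (N : ℝ)) * ∑ n ∈ Icc 1 N, r n * ‖π ((α ^ n) c) ξ‖ ^ 2 : ℝ) : ℂ) := by
    push_cast; ring
  rw [h2, Complex.zero_le_real]
  have : 0 ≤ ∑ n ∈ Icc 1 N, r n * ‖π ((α ^ n) c) ξ‖ ^ 2 := sum_nonneg fun n _ => mul_nonneg (hr n) (sq_nonneg _)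
  positivity

/-- **The main step**: real weights which are orthogonal to most shifts of bounded sequences -/
lemma real_step (hR : ∀ i, ‖Ξ i‖ ≤ R) (x : A) (N : ℕ → ℕ) (s : ℕ → ι) (v : ℕ → ℕ → ℝ) (hv : ∀ j n, |v j n| ≤ 1)
    {𝒱 : Ultrafilter ℕ} (hN : ∀ᶠ j : ℕ in (𝒱 : Filter ℕ), 1 ≤ N j)
    (hNT : ∀ δ : ℝ, 0 < δ → ∃ K₀ : ℕ, ∀ L : ℕ, K₀ ≤ L → ∀ᶠ j : ℕ in (𝒱 : Filter ℕ), ∀ y : ℕ → ℂ, (∀ n, ‖y n‖ ≤ 1) →
      ∑ k ∈ Icc 1 L, ‖∑ n ∈ Icc 1 (N j), (v j n : ℂ) * y (n + k)‖ ≤ δ * L * N j)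
    {φ : A →L[ℂ] ℂ} (hφ : ∀ c, Tendsto (fun j => av α (rr π (Ξ (s j))) (N j) c) 𝒱 (𝓝 (φ c)))
    (hinv : ∀ a, φ (α a) = φ a) (hrec : RecF α φ x) :
    Tendsto (fun j => wav α (rr π (Ξ (s j))) (fun n => (v j n : ℂ)) (N j) x) 𝒱 (𝓝 0) := by
  classical
  obtain ⟨ψ, hψ⟩ := exists_psi (α := α) (π := π) hR N s (fun j n => (((1 + v j n) / 2 : ℝ) : ℂ)) (fun j n => by
    have := abs_le.1 (hv j n)
    rw [Complex.norm_real, Real.norm_eq_abs, abs_le]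
    constructor <;> linarith) 𝒱
  have hav : ∀ j c, av α (rr π (Ξ (s j))) (N j) c =
      wav α (rr π (Ξ (s j))) (fun n => (((1 + v j n) / 2 : ℝ) : ℂ)) (N j) c +
      wav α (rr π (Ξ (s j))) (fun n => (((1 - v j n) / 2 : ℝ) : ℂ)) (N j) c := by
    intro j c
    unfold av wav
    rw [← mul_add, ← sum_add_distrib]
    congr 1
    refine sum_congr rfl fun n _ => ?_
    push_cast
    ring
  have hψ0 : Pos ψ := fun c => ge_of_tendsto (hψ (star c * c)) (Eventually.of_forall fun j =>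
    wav_sq _ _ _ _ fun n => by have := abs_le.1 (hv j n); linarith)
  have hψ1 : Pos (φ - ψ) := by
    intro c
    rw [sub_apply]
    refine ge_of_tendsto ((hφ (star c * c)).sub (hψ (star c * c))) (Eventually.of_forall fun j => ?_)
    rw [hav, add_sub_cancel_left]
    exact wav_sq _ _ _ _ fun n => by have := abs_le.1 (hv j n); linarith
  -- the difference
  have hdiff : ∀ c, Tendsto (fun j => (1 / 2 : ℂ) * wav α (rr π (Ξ (s j))) (fun n => (v j n : ℂ)) (N j) c) 𝒱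
      (𝓝 (ψ c - φ c / 2)) := by
    intro c
    have h1 := (hψ c).sub ((hφ c).div_const 2)
    refine h1.congr fun j => ?_
    unfold av wav
    rw [mul_div_assoc, ← mul_sub, sum_div, ← sum_sub_distrib, ← mul_assoc, mul_comm (1 / 2 : ℂ), mul_assoc]
    congr 1
    rw [mul_sum]
    refine sum_congr rfl fun n _ => ?_
    push_cast
    ring
  obtain ⟨B, hB0, hB⟩ : ∃ B : ℝ, 0 < B ∧ R ^ 2 * ‖x‖ ≤ B := ⟨R ^ 2 * ‖x‖ + 1, by positivity, by linarith⟩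
  -- the shifts
  have hsh : ∀ δ : ℝ, 0 < δ → ∃ K₀ : ℕ, ∀ L : ℕ, K₀ ≤ L → ∑ k ∈ Icc 1 L, ‖ψ ((α ^ k) x) - φ x / 2‖ ≤ δ * L := by
    intro δ hδ
    obtain ⟨K₀, hK⟩ := hNT (δ / B) (by positivity)
    refine ⟨K₀, fun L hL => ?_⟩
    have h1 : Tendsto (fun j => ∑ k ∈ Icc 1 L,
        ‖(1 / 2 : ℂ) * wav α (rr π (Ξ (s j))) (fun n => (v j n : ℂ)) (N j) ((α ^ k) x)‖) 𝒱
        (𝓝 (∑ k ∈ Icc 1 L, ‖ψ ((α ^ k) x) - φ x / 2‖)) := by
      refine tendsto_finsetSum _ fun k _ => ?_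
      have := (hdiff ((α ^ k) x)).norm
      rwa [inv_pow hinv] at this
    refine le_of_tendsto h1 ?_
    filter_upwards [hN, hK L hL] with j hj1 hj2
    have hNj : (0 : ℝ) < N j := by exact_mod_cast hj1
    have h2 := hj2 (fun n => rr π (Ξ (s j)) ((α ^ n) x) / B) (fun n => by
      rw [norm_div, Complex.norm_real, Real.norm_of_nonneg hB0.le, div_le_one hB0]
      exact (rr_bd hR _ _ _).trans hB)
    have h3 : ∀ k, ‖(1 / 2 : ℂ) * wav α (rr π (Ξ (s j))) (fun n => (v j n : ℂ)) (N j) ((α ^ k) x)‖ =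
        (B / (2 * N j)) * ‖∑ n ∈ Icc 1 (N j), (v j n : ℂ) * (rr π (Ξ (s j)) ((α ^ (n + k)) x) / B)‖ := by
      intro k
      unfold wav
      have h4 : ∑ n ∈ Icc 1 (N j), (v j n : ℂ) * rr π (Ξ (s j)) ((α ^ n) ((α ^ k) x)) =
          B * ∑ n ∈ Icc 1 (N j), (v j n : ℂ) * (rr π (Ξ (s j)) ((α ^ (n + k)) x) / B) := by
        rw [mul_sum]
        refine sum_congr rfl fun n _ => ?_
        have h5 : (α ^ (n + k)) x = (α ^ n) ((α ^ k) x) := by rw [pow_add]; rfl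
        have h6 : (B : ℂ) ≠ 0 := by exact_mod_cast hB0.ne'
        rw [h5]
        field_simp
      rw [h4, norm_mul, norm_mul, norm_mul, norm_div, norm_div, norm_one, Complex.norm_natCast, Complex.norm_real,
        Real.norm_of_nonneg hB0.le, Complex.norm_ofNat]
      field_simp
    simp_rw [h3]
    rw [← mul_sum]
    calc B / (2 * N j) * ∑ k ∈ Icc 1 L, ‖∑ n ∈ Icc 1 (N j), (v j n : ℂ) * (rr π (Ξ (s j)) ((α ^ (n + k)) x) / B)‖ ≤
        B / (2 * N j) * (δ / B * L * N j) := mul_le_mul_of_nonneg_left h2 (by positivity)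
      _ = δ * L / 2 := by field_simp
      _ ≤ δ * L := by
          have : 0 ≤ δ * L := by positivity
          linarith
  -- recurrence
  have hkey : ψ x - φ x / 2 = 0 := by
    by_contra hne
    have he : 0 < ‖ψ x - φ x / 2‖ := norm_pos_iff.2 hne
    set e := ‖ψ x - φ x / 2‖ with hed
    obtain ⟨d, hd0, hd⟩ := hrec ψ hψ0 hψ1 (e / 2) (by positivity)
    obtain ⟨K₀, hK₀⟩ := hsh (d * e / 4) (by positivity)
    obtain ⟨L, hL1, hL2⟩ := hd (K₀ + 1)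
    have h1 := hK₀ L (by omega)
    have hL0 : (0 : ℝ) < L := by exact_mod_cast (by omega : 0 < L)
    have h2 : d * L * (e / 2) ≤ ∑ k ∈ Icc 1 L, ‖ψ ((α ^ k) x) - φ x / 2‖ := by
      calc d * L * (e / 2) ≤ (((Icc 1 L).filter fun h => ‖ψ ((α ^ h) x) - ψ x‖ < e / 2).card : ℝ) * (e / 2) :=
            mul_le_mul_of_nonneg_right hL2 (by positivity)
        _ = ∑ _k ∈ (Icc 1 L).filter (fun h => ‖ψ ((α ^ h) x) - ψ x‖ < e / 2), (e / 2) := by
            rw [sum_const, nsmul_eq_mul]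
        _ ≤ ∑ k ∈ (Icc 1 L).filter (fun h => ‖ψ ((α ^ h) x) - ψ x‖ < e / 2), ‖ψ ((α ^ k) x) - φ x / 2‖ := by
            refine sum_le_sum fun k hk => ?_
            rw [mem_filter] at hk
            have h3 : e ≤ ‖ψ ((α ^ k) x) - ψ x‖ + ‖ψ ((α ^ k) x) - φ x / 2‖ := by
              rw [hed]
              have : ψ x - φ x / 2 = (ψ ((α ^ k) x) - φ x / 2) - (ψ ((α ^ k) x) - ψ x) := by ring
              rw [this]
              refine (norm_sub_le _ _).trans ?_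
              rw [add_comm]
            linarith [hk.2]
        _ ≤ _ := sum_le_sum_of_subset_of_nonneg (filter_subset _ _) fun _ _ _ => norm_nonneg _
    have h3 : 0 < d * L * e := by positivity
    nlinarith
  have h1 := hdiff x
  rw [hkey] at h1
  have h2 := h1.const_mul 2
  rw [mul_zero] at h2
  refine h2.congr fun j => ?_
  ring

/-- **Domination**: if each invariant cluster point is recurrent at `x`, then the orbit of `x` is disjoint -/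
theorem dom {f : ℕ → ℤ} (hf : ∀ n, |f n| ≤ 1) (hNT : NT f) (hR : ∀ i, ‖Ξ i‖ ≤ R) (x : A)
    (H : ∀ φ : A →L[ℂ] ℂ, Pos φ → (∀ a, φ (α a) = φ a) → CluU α (fun i => rr π (Ξ i)) φ → RecF α φ x)
    (ε : ℝ) (hε : 0 < ε) : ∃ N₀ : ℕ, ∀ N : ℕ, N₀ ≤ N → ∀ T, SlowT N₀ T → ∀ (θ : ℝ) (i : ι),
      ‖∑ n ∈ Icc 1 N, Wt f θ T n * rr π (Ξ i) ((α ^ n) x)‖ ≤ ε * N := by
  by_contra hcon
  have hcon' : ∀ j : ℕ, ∃ (N : ℕ) (T : ℕ → ℂ) (θ : ℝ) (i : ι), j + 1 ≤ N ∧ SlowT (j + 1) T ∧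
      ε * N < ‖∑ n ∈ Icc 1 N, Wt f θ T n * rr π (Ξ i) ((α ^ n) x)‖ := by
    intro j
    by_contra h
    apply hcon
    refine ⟨j + 1, fun N hN T hT θ i => ?_⟩
    by_contra h1
    exact h ⟨N, T, θ, i, hN, hT, not_le.1 h1⟩
  choose N T θ s hN1 hT hbig using hcon'
  have hat : Tendsto N atTop atTop := tendsto_atTop_mono hN1 (tendsto_add_atTop_nat 1)
  obtain ⟨𝒱, h𝒱⟩ : ∃ 𝒱 : Ultrafilter ℕ, (𝒱 : Filter ℕ) ≤ atTop := Ultrafilter.exists_le atTop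
  have h𝒱a : Tendsto N 𝒱 atTop := hat.mono_left h𝒱
  obtain ⟨φ, hφ⟩ := exists_phiU α π Ξ R hR N s 𝒱
  have hinv := phiU_inv α hR h𝒱a hφ
  have hrec := H φ (phiU_pos α hφ) hinv (phiU_clu α h𝒱a hφ)
  -- the weights
  have hW : ∀ δ : ℝ, 0 < δ → ∃ K₀ : ℕ, ∀ L : ℕ, K₀ ≤ L → ∀ᶠ j : ℕ in (𝒱 : Filter ℕ), ∀ y : ℕ → ℂ, (∀ n, ‖y n‖ ≤ 1) →
      ∑ k ∈ Icc 1 L, ‖∑ n ∈ Icc 1 (N j), Wt f (θ j) (T j) n * y (n + k)‖ ≤ δ * L * N j ∧
      ∑ k ∈ Icc 1 L, ‖∑ n ∈ Icc 1 (N j), (starRingEnd ℂ) (Wt f (θ j) (T j) n) * y (n + k)‖ ≤ δ * L * N j := by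
    intro δ hδ
    obtain ⟨K₀, hK⟩ := hNT δ hδ
    refine ⟨K₀, fun L hL => ?_⟩
    obtain ⟨N₀, hN₀⟩ := hK L hL
    filter_upwards [h𝒱 (eventually_ge_atTop N₀)] with j hj y hy
    have e1 : N₀ ≤ j := hj
    refine ⟨hN₀ (N j) (by have := hN1 j; omega) (T j) ((hT j).mono (by omega)) (θ j) y hy, ?_⟩
    simp_rw [Wt_conj]
    exact hN₀ (N j) (by have := hN1 j; omega) _ ((hT j).mono (by omega)).conj (-θ j) y hy
  have hWle : ∀ j n, ‖Wt f (θ j) (T j) n‖ ≤ 1 := fun j n => Wt_le hf _ (hT j).1 n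
  have hNev : ∀ᶠ j : ℕ in (𝒱 : Filter ℕ), 1 ≤ N j := Eventually.of_forall fun j => by have := hN1 j; omega
  have hre := real_step (α := α) (π := π) hR x N s (fun j n => (Wt f (θ j) (T j) n).re)
    (fun j n => (Complex.abs_re_le_norm _).trans (hWle j n)) hNev (by
      intro δ hδ
      obtain ⟨K₀, hK⟩ := hW δ hδ
      refine ⟨K₀, fun L hL => ?_⟩
      filter_upwards [hK L hL] with j hj y hy
      obtain ⟨h1, h2⟩ := hj y hy
      calc ∑ k ∈ Icc 1 L, ‖∑ n ∈ Icc 1 (N j), ((Wt f (θ j) (T j) n).re : ℂ) * y (n + k)‖ ≤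
          ∑ k ∈ Icc 1 L, (1 / 2 * ‖∑ n ∈ Icc 1 (N j), Wt f (θ j) (T j) n * y (n + k)‖ +
            1 / 2 * ‖∑ n ∈ Icc 1 (N j), (starRingEnd ℂ) (Wt f (θ j) (T j) n) * y (n + k)‖) := by
            refine sum_le_sum fun k _ => ?_
            have e1 : ∑ n ∈ Icc 1 (N j), ((Wt f (θ j) (T j) n).re : ℂ) * y (n + k) =
                (1 / 2 : ℂ) * ∑ n ∈ Icc 1 (N j), Wt f (θ j) (T j) n * y (n + k) +
                (1 / 2 : ℂ) * ∑ n ∈ Icc 1 (N j), (starRingEnd ℂ) (Wt f (θ j) (T j) n) * y (n + k) := by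
              rw [← mul_add, ← sum_add_distrib, mul_sum]
              refine sum_congr rfl fun n _ => ?_
              rw [← add_mul, Complex.add_conj]
              push_cast
              ring
            rw [e1]
            refine (norm_add_le _ _).trans (le_of_eq ?_)
            rw [norm_mul, norm_mul]
            norm_num
        _ ≤ δ * L * N j := by
            rw [sum_add_distrib, ← mul_sum, ← mul_sum]
            linarith) hφ hinv hrec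
  have him := real_step (α := α) (π := π) hR x N s (fun j n => (Wt f (θ j) (T j) n).im)
    (fun j n => (Complex.abs_im_le_norm _).trans (hWle j n)) hNev (by
      intro δ hδ
      obtain ⟨K₀, hK⟩ := hW δ hδ
      refine ⟨K₀, fun L hL => ?_⟩
      filter_upwards [hK L hL] with j hj y hy
      obtain ⟨h1, h2⟩ := hj y hy
      calc ∑ k ∈ Icc 1 L, ‖∑ n ∈ Icc 1 (N j), ((Wt f (θ j) (T j) n).im : ℂ) * y (n + k)‖ ≤
          ∑ k ∈ Icc 1 L, (1 / 2 * ‖∑ n ∈ Icc 1 (N j), Wt f (θ j) (T j) n * y (n + k)‖ +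
            1 / 2 * ‖∑ n ∈ Icc 1 (N j), (starRingEnd ℂ) (Wt f (θ j) (T j) n) * y (n + k)‖) := by
            refine sum_le_sum fun k _ => ?_
            have e1 : ∑ n ∈ Icc 1 (N j), ((Wt f (θ j) (T j) n).im : ℂ) * y (n + k) =
                (-Complex.I / 2 : ℂ) * ∑ n ∈ Icc 1 (N j), Wt f (θ j) (T j) n * y (n + k) +
                (Complex.I / 2 : ℂ) * ∑ n ∈ Icc 1 (N j), (starRingEnd ℂ) (Wt f (θ j) (T j) n) * y (n + k) := by
              rw [mul_sum, mul_sum, ← sum_add_distrib]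
              refine sum_congr rfl fun n _ => ?_
              have e2 : ((Wt f (θ j) (T j) n).im : ℂ) = (-Complex.I / 2 : ℂ) * Wt f (θ j) (T j) n +
                  (Complex.I / 2 : ℂ) * (starRingEnd ℂ) (Wt f (θ j) (T j) n) := by
                apply Complex.ext <;> simp <;> ring
              rw [e2]
              ring
            rw [e1]
            refine (norm_add_le _ _).trans (le_of_eq ?_)
            rw [norm_mul, norm_mul, norm_div, norm_div, norm_neg, Complex.norm_I]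
            norm_num
        _ ≤ δ * L * N j := by
            rw [sum_add_distrib, ← mul_sum, ← mul_sum]
            linarith) hφ hinv hrec
  have hall : Tendsto (fun j => wav α (rr π (Ξ (s j))) (fun n => Wt f (θ j) (T j) n) (N j) x) 𝒱 (𝓝 0) := by
    have h1 := hre.add (him.const_mul Complex.I)
    rw [mul_zero, add_zero] at h1
    refine h1.congr fun j => ?_
    unfold wav
    rw [← mul_assoc, mul_comm Complex.I, mul_assoc, ← mul_add, mul_sum, ← sum_add_distrib]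
    congr 1
    refine sum_congr rfl fun n _ => ?_
    rw [← mul_assoc, ← add_mul, mul_comm Complex.I, Complex.re_add_im]
  have hev : ∀ᶠ j : ℕ in (𝒱 : Filter ℕ), ‖wav α (rr π (Ξ (s j))) (fun n => Wt f (θ j) (T j) n) (N j) x‖ < ε := by
    have := tendsto_iff_norm_sub_tendsto_zero.1 hall
    simp only [sub_zero] at this
    exact this.eventually (gt_mem_nhds hε)
  obtain ⟨j, hj⟩ := hev.exists
  have hNj : (0 : ℝ) < N j := by
    have := hN1 j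
    exact_mod_cast (by omega : 0 < N j)
  unfold wav at hj
  rw [norm_mul, norm_div, norm_one, Complex.norm_natCast, one_div, inv_mul_lt_iff₀ hNj] at hj
  have := hbig j
  linarith

end

end Pool.Agent.P8H72.SC
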