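import Pool.Agent.TH823.MRS.Circ5
import Pool.Agent.P8H72.SC.Dom

set_option autoImplicit false

/-! # The weights do not correlate with most shifts of a bounded sequence -/

namespace Pool.Agent.P8H72.SC

open Finset Filter Topology
open Pool.Agent.TH823.MRS (ExpoSmall l1_short)
open Pool.Agent.H373R2.T7 (exI energy)

noncomputable section

lemma energy_one (x : ℕ) : energy 1 x (fun m => -(m : ℤ)) ≤ x := by
  classical
  unfold energy
  have h1 : ((((Fintype.piFinset fun _ : Fin 1 => Icc 1 x) ×ˢ (Fintype.piFinset fun _ : Fin 1 => Icc 1 x)).filter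
      (fun q : (Fin 1 → ℕ) × (Fin 1 → ℕ) => ∑ i, (-(q.1 i : ℤ)) = ∑ i, (-(q.2 i : ℤ))))).card ≤ (Icc 1 x).card := by
    apply card_le_card_of_injOn (fun q => q.1 0)
    · intro q hq
      rw [coe_filter, Set.mem_ofPred_eq, mem_product, Fintype.mem_piFinset] at hq
      exact hq.1.1 0
    · intro q hq q' hq' h
      rw [coe_filter, Set.mem_ofPred_eq] at hq hq'
      have h2 := hq.2
      have h3 := hq'.2
      simp only [Fin.sum_univ_one, neg_inj, Nat.cast_inj] at h2 h3
      have h4 : q.1 0 = q'.1 0 := h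
      apply Prod.ext
      · funext i
        rw [Subsingleton.elim i 0]
        exact h4
      · funext i
        rw [Subsingleton.elim i 0, ← h2, ← h3]
        exact h4
  rwa [Nat.card_Icc, Nat.add_sub_cancel] at h1

lemma SlowT.shift {L : ℕ} {T : ℕ → ℂ} (h : SlowT L T) (n k : ℕ) : (L : ℝ) * ‖T n - T (n + k)‖ ≤ k := by
  induction k with
  | zero => simp
  | succ k ih =>
    have h1 := h.2 (n + k)
    have h2 : T n - T (n + (k + 1)) = (T n - T (n + k)) + (T (n + k) - T (n + k + 1)) := by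
      rw [← add_assoc]; ring
    rw [h2]
    have h3 := mul_le_mul_of_nonneg_left (norm_add_le (T n - T (n + k)) (T (n + k) - T (n + k + 1))) (Nat.cast_nonneg (α := ℝ) L)
    push_cast
    linarith

theorem nt {f : ℕ → ℤ} (hf : ∀ n, |f n| ≤ 1) (hE : ExpoSmall (fun n => ((f n : ℤ) : ℂ))) : NT f := by
  intro ε hε
  obtain ⟨H₀, N₁, h1⟩ := l1_short (fun n => ((f n : ℤ) : ℂ)) (fun n => by
    rw [Complex.norm_intCast]; exact_mod_cast hf n) hE 1 1 zero_le_one (ε / 2) (by positivity)
  refine ⟨H₀, fun K hK => ⟨N₁ + K + ⌈4 * K / ε⌉₊ + 1, fun N hN T hT θ y hy => ?_⟩⟩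
  obtain ⟨N₀, hN₀⟩ : ∃ N₀ : ℕ, N₀ = N₁ + K + ⌈4 * K / ε⌉₊ + 1 := ⟨_, rfl⟩
  rw [← hN₀] at hN hT
  have hKN0 : 4 * (K : ℝ) ≤ ε * N₀ := by
    have : 4 * (K : ℝ) / ε ≤ N₀ := by
      refine (Nat.le_ceil _).trans ?_
      rw [hN₀]
      exact_mod_cast (by omega : ⌈4 * K / ε⌉₊ ≤ N₁ + K + ⌈4 * K / ε⌉₊ + 1)
    rw [div_le_iff₀ hε] at this
    linarith
  have hN0pos : (0 : ℝ) < N₀ := by rw [hN₀]; positivity
  have hNr : (N₀ : ℝ) ≤ N := by exact_mod_cast hN
  have hKr : (0 : ℝ) ≤ K := Nat.cast_nonneg _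
  -- the sequence on the integers
  set G : ℤ → ℂ := fun a => if 1 ≤ a then Complex.exp (2 * Real.pi * Complex.I * a.toNat * θ) * T a.toNat * y a.toNat
    else 0 with hG
  have hGb : ∀ a, ‖G a‖ ≤ 1 := by
    intro a
    rw [hG]
    simp only
    split_ifs
    · rw [norm_mul, norm_mul, norm_exp', one_mul]
      exact mul_le_one₀ (hT.1 _) (norm_nonneg _) (hy _)
    · simp
  have h2 := h1 N (by omega) K hK (by omega) K (fun m => -(m : ℤ)) (fun m hm => by
    rw [mem_Icc] at hm
    rw [abs_neg, Nat.abs_cast]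
    exact_mod_cast hm.2) (by
    have := energy_one K
    have h3 : (energy 1 K (fun m => -(m : ℤ)) : ℝ) ≤ K := by exact_mod_cast this
    calc (energy 1 K (fun m => -(m : ℤ)) : ℝ) * K ≤ K * K := mul_le_mul_of_nonneg_right h3 hKr
      _ = _ := by ring) G hGb
  have h3 : ∀ k ∈ Icc 1 K, ‖∑ n ∈ Icc 1 N, Wt f θ T n * y (n + k)‖ ≤
      ‖∑ a ∈ Ioc (-(K : ℤ)) N, G a * exI (fun n => ((f n : ℤ) : ℂ)) (a + -(k : ℤ))‖ + ε / 2 * N := by
    intro k hk
    rw [mem_Icc] at hk
    have hkr : (k : ℝ) ≤ K := by exact_mod_cast hk.2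
    -- the sum over `a` is a sum over `n ≤ N - k`
    have e1 : ∑ a ∈ Ioc (-(K : ℤ)) N, G a * exI (fun n => ((f n : ℤ) : ℂ)) (a + -(k : ℤ)) =
        ∑ n ∈ Icc 1 (N - k), (f n : ℂ) * (Complex.exp (2 * Real.pi * Complex.I * ((n + k : ℕ) : ℂ) * θ) * T (n + k) * y (n + k)) := by
      symm
      rw [← sum_subset (s₁ := Ioc (k : ℤ) N)]
      · refine sum_nbij' (fun n : ℕ => ((n + k : ℕ) : ℤ)) (fun a : ℤ => (a - k).toNat) ?_ ?_ ?_ ?_ ?_
        · intro n hn
          rw [mem_Icc] at hn
          rw [mem_Ioc]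
          omega
        · intro a ha
          rw [mem_Ioc] at ha
          rw [mem_Icc]
          omega
        · intro n hn
          simp
        · intro a ha
          rw [mem_Ioc] at ha
          omega
        · intro n hn
          rw [mem_Icc] at hn
          have e2 : ((n + k : ℕ) : ℤ) + -(k : ℤ) = n := by push_cast; ring
          rw [e2, hG]
          unfold exI
          simp only
          rw [if_pos (by omega), if_pos (by omega), Int.toNat_natCast, Int.toNat_natCast, mul_comm]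
      · intro a ha
        rw [mem_Ioc] at ha ⊢
        omega
      · intro a _ ha
        rw [mem_Ioc] at ha
        rw [mem_Ioc] at *
        unfold exI
        rw [if_neg (by omega), mul_zero]
    -- the twist
    have e3 : ∀ n : ℕ, Complex.exp (2 * Real.pi * Complex.I * ((n + k : ℕ) : ℂ) * θ) =
        Complex.exp (2 * Real.pi * Complex.I * k * θ) * Complex.exp (2 * Real.pi * Complex.I * n * θ) := by
      intro n
      rw [← Complex.exp_add]
      congr 1
      push_cast
      ring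
    have e4 : Icc 1 N = Icc 1 (N - k) ∪ Ioc (N - k) N := by
      ext n
      simp only [mem_Icc, mem_union, mem_Ioc]
      omega
    have e5 : Disjoint (Icc 1 (N - k)) (Ioc (N - k) N) := by
      rw [disjoint_left]
      intro n hn hn'
      rw [mem_Icc] at hn
      rw [mem_Ioc] at hn'
      omega
    have e6 : ∑ n ∈ Icc 1 (N - k), Wt f θ T n * y (n + k) =
        ∑ n ∈ Icc 1 (N - k), Wt f θ (fun n => T (n + k)) n * y (n + k) +
        ∑ n ∈ Icc 1 (N - k), (f n : ℂ) * Complex.exp (2 * Real.pi * Complex.I * n * θ) * (T n - T (n + k)) * y (n + k) := by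
      rw [← sum_add_distrib]
      refine sum_congr rfl fun n _ => ?_
      unfold Wt
      ring
    have e7 : ‖∑ n ∈ Icc 1 (N - k), Wt f θ (fun n => T (n + k)) n * y (n + k)‖ =
        ‖∑ a ∈ Ioc (-(K : ℤ)) N, G a * exI (fun n => ((f n : ℤ) : ℂ)) (a + -(k : ℤ))‖ := by
      rw [e1]
      have : ∑ n ∈ Icc 1 (N - k), (f n : ℂ) * (Complex.exp (2 * Real.pi * Complex.I * ((n + k : ℕ) : ℂ) * θ) * T (n + k) * y (n + k)) =
          Complex.exp (2 * Real.pi * Complex.I * k * θ) * ∑ n ∈ Icc 1 (N - k), Wt f θ (fun n => T (n + k)) n * y (n + k) := by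
        rw [mul_sum]
        refine sum_congr rfl fun n _ => ?_
        rw [e3]
        unfold Wt
        ring
      rw [this, norm_mul, norm_exp', one_mul]
    have e8 : ‖∑ n ∈ Icc 1 (N - k), (f n : ℂ) * Complex.exp (2 * Real.pi * Complex.I * n * θ) * (T n - T (n + k)) * y (n + k)‖ ≤
        ε / 4 * N := by
      refine (norm_sum_le _ _).trans ?_
      calc _ ≤ ∑ _n ∈ Icc 1 (N - k), ε / 4 := by
            refine sum_le_sum fun n _ => ?_
            rw [norm_mul, norm_mul, norm_mul, norm_exp', mul_one, Complex.norm_intCast]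
            have h4 : |(f n : ℝ)| ≤ 1 := by exact_mod_cast hf n
            have h5 : ‖T n - T (n + k)‖ ≤ ε / 4 := by
              have h6 := hT.shift n k
              have h7 : (N₀ : ℝ) * ‖T n - T (n + k)‖ ≤ N₀ * (ε / 4) := by linarith
              exact le_of_mul_le_mul_left h7 hN0pos
            calc |(f n : ℝ)| * ‖T n - T (n + k)‖ * ‖y (n + k)‖ ≤ 1 * (ε / 4) * 1 :=
                  mul_le_mul (mul_le_mul h4 h5 (norm_nonneg _) zero_le_one) (hy _) (norm_nonneg _) (by positivity)
              _ = _ := by ring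
        _ ≤ _ := by
            rw [sum_const, Nat.card_Icc, nsmul_eq_mul, mul_comm]
            apply mul_le_mul_of_nonneg_left _ (by positivity)
            exact_mod_cast (by omega : N - k + 1 - 1 ≤ N)
    have e9 : ‖∑ n ∈ Ioc (N - k) N, Wt f θ T n * y (n + k)‖ ≤ ε / 4 * N := by
      refine (norm_sum_le _ _).trans ?_
      calc _ ≤ ∑ _n ∈ Ioc (N - k) N, (1 : ℝ) := by
            refine sum_le_sum fun n _ => ?_
            rw [norm_mul]
            exact mul_le_one₀ (Wt_le hf θ hT.1 n) (norm_nonneg _) (hy _)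
        _ = k := by
            rw [sum_const, Nat.card_Ioc, nsmul_eq_mul, mul_one]
            congr 1
            omega
        _ ≤ _ := by nlinarith
    rw [e4, sum_union e5, e6]
    refine (norm_add_le _ _).trans ?_
    have e10 := norm_add_le (∑ n ∈ Icc 1 (N - k), Wt f θ (fun n => T (n + k)) n * y (n + k))
      (∑ n ∈ Icc 1 (N - k), (f n : ℂ) * Complex.exp (2 * Real.pi * Complex.I * n * θ) * (T n - T (n + k)) * y (n + k))
    rw [e7] at e10
    linarith
  refine (sum_le_sum h3).trans ?_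
  rw [sum_add_distrib, sum_const, Nat.card_Icc, nsmul_eq_mul, Nat.add_sub_cancel]
  calc _ ≤ ε / 2 * N * K + K * (ε / 2 * N) := add_le_add h2 le_rfl
    _ = _ := by ring

theorem nt_mu : NT (fun n => ArithmeticFunction.moebius n) :=
  nt (fun _ => ArithmeticFunction.abs_moebius_le_one) Pool.Agent.TH823.MRS.mu_E

theorem nt_lam : NT (fun n => (-1) ^ ArithmeticFunction.cardFactors n) := by
  refine nt (fun n => by rw [abs_pow, abs_neg, abs_one, one_pow]) ?_
  have h1 : (fun n : ℕ => ((((-1) ^ ArithmeticFunction.cardFactors n : ℤ)) : ℂ)) = Pool.Agent.H373R2.T7.liR := by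
    funext n
    unfold Pool.Agent.H373R2.T7.liR
    push_cast
    rfl
  rw [h1]
  exact Pool.Agent.TH823.MRS.liR_E

end

end Pool.Agent.P8H72.SC
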