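import Mathlib

set_option autoImplicit false

/-! # Positive functionals on algebras without unit -/

namespace Pool.Agent.P8H72.SC

open Finset Filter Topology
open scoped ComplexOrder InnerProductSpace

noncomputable section

universe u v

variable {A : Type u} [NonUnitalCStarAlgebra A]

/-- positive functionals -/
def Pos (φ : A →L[ℂ] ℂ) : Prop := ∀ a, 0 ≤ φ (star a * a)

/-- a decomposition into four squares -/
lemma four (a : A) : ∃ b : Fin 4 → A, (∀ i, ‖b i‖ ^ 2 ≤ ‖a‖) ∧ a = ∑ i : Fin 4, Complex.I ^ (i : ℕ) • (star (b i) * b i) := by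
  let _ := CStarAlgebra.spectralOrder A
  have _ := CStarAlgebra.spectralOrderedRing A
  obtain ⟨x, h1, h2, h3⟩ := CStarAlgebra.exists_sum_four_nonneg a
  choose b hb using fun i => CStarAlgebra.nonneg_iff_eq_star_mul_self.1 (h1 i)
  refine ⟨b, fun i => ?_, ?_⟩
  · rw [pow_two, ← CStarRing.norm_star_mul_self, ← hb i]
    exact h2 i
  · rw [h3]
    exact sum_congr rfl fun i _ => by rw [← hb i]

variable {φ ψ : A →L[ℂ] ℂ}

lemma Pos.im (h : Pos φ) (a : A) : (φ (star a * a)).im = 0 := (Complex.nonneg_iff.1 (h a)).2.symm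

lemma Pos.re (h : Pos φ) (a : A) : 0 ≤ (φ (star a * a)).re := (Complex.nonneg_iff.1 (h a)).1

lemma Pos.eq_re (h : Pos φ) (a : A) : φ (star a * a) = ((φ (star a * a)).re : ℂ) := by
  apply Complex.ext
  · simp
  · simp [h.im a]

lemma Pos.herm (h : Pos φ) (a : A) : φ (star a) = (starRingEnd ℂ) (φ a) := by
  obtain ⟨b, -, hb⟩ := four a
  rw [hb, star_sum, map_sum, map_sum, map_sum]
  refine sum_congr rfl fun i _ => ?_
  have e1 := h.eq_re (b i)
  rw [star_smul, star_mul, star_star, map_smul, map_smul, smul_eq_mul, smul_eq_mul, map_mul (starRingEnd ℂ), e1,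
    Complex.conj_ofReal]
  rfl

/-- the Cauchy-Schwarz inequality -/
lemma Pos.cs (h : Pos φ) (a b : A) : ‖φ (star a * b)‖ ^ 2 ≤ (φ (star a * a)).re * (φ (star b * b)).re := by
  let _ := CStarAlgebra.spectralOrder A
  have _ := CStarAlgebra.spectralOrderedRing A
  let f : A →ₚ[ℂ] ℂ := PositiveLinearMap.mk₀ φ.toLinearMap (fun x hx => by
    obtain ⟨y, rfl⟩ := CStarAlgebra.nonneg_iff_eq_star_mul_self.1 hx
    exact h y)
  have h1 := norm_inner_le_norm (𝕜 := ℂ) (f.toPreGNS a) (f.toPreGNS b)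
  have h2 : ∀ c : A, ‖f.toPreGNS c‖ ^ 2 = (φ (star c * c)).re := by
    intro c
    have := f.preGNS_norm_sq (f.toPreGNS c)
    have h3 : ((‖f.toPreGNS c‖ ^ 2 : ℝ) : ℂ) = φ (star c * c) := by
      push_cast
      exact this
    rw [← h3, Complex.ofReal_re]
  have h3 : ‖φ (star a * b)‖ ≤ ‖f.toPreGNS a‖ * ‖f.toPreGNS b‖ := h1
  calc ‖φ (star a * b)‖ ^ 2 ≤ (‖f.toPreGNS a‖ * ‖f.toPreGNS b‖) ^ 2 := pow_le_pow_left₀ (norm_nonneg _) h3 2
    _ = _ := by rw [mul_pow, h2, h2]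

lemma Pos.sq_le (h : Pos φ) (a : A) : ‖φ a‖ ^ 2 ≤ ‖φ‖ * (φ (star a * a)).re := by
  let _ := CStarAlgebra.spectralOrder A
  have _ := CStarAlgebra.spectralOrderedRing A
  have hl := CStarAlgebra.increasingApproximateUnit A
  have := hl.toIsApproximateUnit.neBot
  have h1 : Tendsto (fun e => ‖φ (e * a)‖ ^ 2) (CStarAlgebra.approximateUnit A) (𝓝 (‖φ a‖ ^ 2)) :=
    (((φ.continuous.tendsto a).comp (hl.tendsto_mul_right a)).norm).pow 2
  refine le_of_tendsto h1 ?_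
  filter_upwards [hl.eventually_star_eq, hl.eventually_norm] with e he1 he2
  have h2 := h.cs e a
  rw [he1] at h2
  refine h2.trans (mul_le_mul_of_nonneg_right ?_ (h.re a))
  calc (φ (e * e)).re ≤ ‖φ (e * e)‖ := Complex.re_le_norm _
    _ ≤ ‖φ‖ * ‖e * e‖ := φ.le_opNorm _
    _ ≤ ‖φ‖ * 1 := by
        apply mul_le_mul_of_nonneg_left _ (norm_nonneg _)
        exact (norm_mul_le _ _).trans (mul_le_one₀ he2 (norm_nonneg _) he2)
    _ = _ := mul_one _

lemma Pos.norm_le (hψ : Pos ψ) (h : Pos (φ - ψ)) : ‖ψ‖ ≤ ‖φ‖ := by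
  have h1 : ∀ a, ‖ψ a‖ ^ 2 ≤ ‖ψ‖ * ‖φ‖ * ‖a‖ ^ 2 := by
    intro a
    have h2 := h.re a
    rw [sub_apply, Complex.sub_re] at h2
    have h3 : (φ (star a * a)).re ≤ ‖φ‖ * ‖a‖ ^ 2 := by
      refine (Complex.re_le_norm _).trans ((φ.le_opNorm _).trans ?_)
      rw [CStarRing.norm_star_mul_self, pow_two]
    calc ‖ψ a‖ ^ 2 ≤ ‖ψ‖ * (ψ (star a * a)).re := hψ.sq_le a
      _ ≤ ‖ψ‖ * (‖φ‖ * ‖a‖ ^ 2) := mul_le_mul_of_nonneg_left (by linarith) (norm_nonneg _)
      _ = _ := by ring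
  have h2 : ‖ψ‖ ≤ Real.sqrt (‖ψ‖ * ‖φ‖) := by
    refine ψ.opNorm_le_bound (Real.sqrt_nonneg _) fun a => ?_
    have h3 := Real.sqrt_le_sqrt (h1 a)
    rw [Real.sqrt_sq (norm_nonneg _), Real.sqrt_mul (by positivity), Real.sqrt_sq (norm_nonneg _)] at h3
    exact h3
  have h3 : ‖ψ‖ ^ 2 ≤ ‖ψ‖ * ‖φ‖ := by
    calc ‖ψ‖ ^ 2 ≤ (Real.sqrt (‖ψ‖ * ‖φ‖)) ^ 2 := pow_le_pow_left₀ (norm_nonneg _) h2 2
      _ = _ := Real.sq_sqrt (by positivity)
  rcases (norm_nonneg ψ).eq_or_lt with h4 | h4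
  · rw [← h4]; exact norm_nonneg _
  · rw [pow_two] at h3
    exact le_of_mul_le_mul_left h3 h4

/-- the second component of the unitization is bounded -/
lemma snd_le (x : Unitization ℂ A) : ‖x.snd‖ ≤ 2 * ‖x‖ := by
  have h1 : ‖x.fst‖ ≤ ‖x‖ := by
    rw [Unitization.norm_eq_sup]
    exact le_max_left _ _
  have h2 : (Unitization.inr x.snd : Unitization ℂ A) = x - Unitization.inl x.fst :=
    eq_sub_of_add_eq' (Unitization.inl_fst_add_inr_snd_eq x)
  calc ‖x.snd‖ = ‖(Unitization.inr x.snd : Unitization ℂ A)‖ := (Unitization.norm_inr (𝕜 := ℂ) x.snd).symm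
    _ ≤ ‖x‖ + ‖(Unitization.inl x.fst : Unitization ℂ A)‖ := by rw [h2]; exact norm_sub_le _ _
    _ ≤ ‖x‖ + ‖x.fst‖ := by
        gcongr
        rw [← Unitization.algebraMap_eq_inl, norm_algebraMap']
    _ ≤ _ := by linarith

/-- positive functionals extend to the unitization -/
lemma Pos.ext (h : Pos φ) : ∃ Φ : Unitization ℂ A →L[ℂ] ℂ, (∀ x, 0 ≤ Φ (star x * x)) ∧
    (∀ a : A, Φ (Unitization.inr a) = φ a) ∧ Φ 1 = ‖φ‖ := by
  let Φ₀ : Unitization ℂ A →ₗ[ℂ] ℂ :=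
    { toFun := fun x => φ x.snd + x.fst * ‖φ‖
      map_add' := fun x y => by simp; ring
      map_smul' := fun c x => by simp; ring }
  let Φ : Unitization ℂ A →L[ℂ] ℂ := Φ₀.mkContinuous (3 * ‖φ‖) (fun x => by
    show ‖φ x.snd + x.fst * ‖φ‖‖ ≤ _
    have h1 : ‖x.fst‖ ≤ ‖x‖ := by
      rw [Unitization.norm_eq_sup]
      exact le_max_left _ _
    refine (norm_add_le _ _).trans ?_
    rw [norm_mul, Complex.norm_real, norm_norm]
    have h2 := (φ.le_opNorm x.snd).trans (mul_le_mul_of_nonneg_left (snd_le x) (norm_nonneg _))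
    have h3 := mul_le_mul_of_nonneg_right h1 (norm_nonneg φ)
    linarith)
  refine ⟨Φ, fun x => ?_, fun a => ?_, ?_⟩
  · show 0 ≤ φ (star x * x).snd + (star x * x).fst * ‖φ‖
    obtain ⟨l, a, rfl⟩ : ∃ (l : ℂ) (a : A), x = Unitization.inl l + Unitization.inr a :=
      ⟨x.fst, x.snd, (Unitization.inl_fst_add_inr_snd_eq x).symm⟩
    have e1 : φ (star (Unitization.inl l + Unitization.inr a : Unitization ℂ A) *
        (Unitization.inl l + Unitization.inr a)).snd = (starRingEnd ℂ) l * φ a + l * φ (star a) + φ (star a * a) := by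
      simp
    have e2 : (star (Unitization.inl l + Unitization.inr a : Unitization ℂ A) *
        (Unitization.inl l + Unitization.inr a)).fst = (starRingEnd ℂ) l * l := by
      simp
    rw [e1, e2, h.herm a]
    have e3 : (starRingEnd ℂ) l * φ a + l * (starRingEnd ℂ) (φ a) + φ (star a * a) + (starRingEnd ℂ) l * l * (‖φ‖ : ℂ) =
        ((2 * ((starRingEnd ℂ) l * φ a).re + (φ (star a * a)).re + ‖l‖ ^ 2 * ‖φ‖ : ℝ) : ℂ) := by
      have e4 : l * (starRingEnd ℂ) (φ a) = (starRingEnd ℂ) ((starRingEnd ℂ) l * φ a) := by simp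
      have e5 : (starRingEnd ℂ) l * φ a + l * (starRingEnd ℂ) (φ a) = ((2 * ((starRingEnd ℂ) l * φ a).re : ℝ) : ℂ) := by
        rw [e4, Complex.add_conj]
      have e6 : (starRingEnd ℂ) l * l = ((‖l‖ ^ 2 : ℝ) : ℂ) := by
        rw [Complex.conj_mul']
        push_cast
        rfl
      rw [e5, e6, h.eq_re]
      push_cast
      simp
    rw [e3, Complex.zero_le_real]
    have h1 := h.sq_le a
    have h2 : -(‖l‖ * ‖φ a‖) ≤ ((starRingEnd ℂ) l * φ a).re := by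
      have := Complex.abs_re_le_norm ((starRingEnd ℂ) l * φ a)
      rw [norm_mul, RCLike.norm_conj] at this
      exact (abs_le.1 this).1
    have h3 := h.re a
    have h4 : 2 * (‖l‖ * ‖φ a‖) ≤ (φ (star a * a)).re + ‖l‖ ^ 2 * ‖φ‖ := by
      apply le_of_sq_le_sq _ (by positivity)
      calc (2 * (‖l‖ * ‖φ a‖)) ^ 2 = 4 * ‖l‖ ^ 2 * ‖φ a‖ ^ 2 := by ring
        _ ≤ 4 * ‖l‖ ^ 2 * (‖φ‖ * (φ (star a * a)).re) := mul_le_mul_of_nonneg_left h1 (by positivity)
        _ ≤ _ := by nlinarith [sq_nonneg ((φ (star a * a)).re - ‖l‖ ^ 2 * ‖φ‖)]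
    linarith
  · show φ (Unitization.inr a : Unitization ℂ A).snd + (Unitization.inr a : Unitization ℂ A).fst * ‖φ‖ = _
    simp
  · show φ (1 : Unitization ℂ A).snd + (1 : Unitization ℂ A).fst * ‖φ‖ = _
    simp

end

end Pool.Agent.P8H72.SC
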