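import Pool.Agent.R296.SM.NormU
import Pool.Agent.P8H72.SC.Cov

set_option autoImplicit false

/-! # Recurrence -/

namespace Pool.Agent.P8H72.SC

open Finset Filter Topology
open scoped ComplexOrder InnerProductSpace
open Pool.Agent.R296.SM (exists_gnsU norm_pow_apply)

noncomputable section

universe u v

theorem gnsAll (A : Type u) [NonUnitalCStarAlgebra A] : GnsAll A := by
  choose Φ h1 h2 h3 using fun φ : {φ : A →L[ℂ] ℂ // Pos φ} => φ.2.ext
  obtain ⟨K, i1, i2, i3, π, ξ, h4⟩ := exists_gnsU (Unitization ℂ A) (Set.range Φ) (by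
    rintro _ ⟨φ, rfl⟩ a
    exact h1 φ a)
  refine ⟨K, i1, i2, i3, (π : Unitization ℂ A →⋆ₙₐ[ℂ] (K →L[ℂ] K)).comp (Unitization.inrNonUnitalStarAlgHom ℂ A),
    fun φ => ξ ⟨Φ φ, φ, rfl⟩, fun φ a => ?_, fun φ => ?_⟩
  · have h5 := h4 ⟨Φ φ, φ, rfl⟩ (Unitization.inr a)
    rw [h2] at h5
    exact h5
  · have h5 := h4 ⟨Φ φ, φ, rfl⟩ 1
    rw [map_one, h3] at h5
    have h6 : ((‖ξ ⟨Φ φ, φ, rfl⟩‖ ^ 2 : ℝ) : ℂ) = ‖φ.1‖ := by
      rw [← h5]
      show _ = ⟪ξ ⟨Φ φ, φ, rfl⟩, ξ ⟨Φ φ, φ, rfl⟩⟫_ℂ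
      rw [inner_self_eq_norm_sq_to_K]
      push_cast
      rfl
    exact_mod_cast h6

variable {A : Type u} [NonUnitalCStarAlgebra A] (α : A ≃⋆ₐ[ℂ] A)

/-- each functional below `φ` returns at `x`, along a set of times of positive upper density -/
def RecF (φ : A →L[ℂ] ℂ) (x : A) : Prop :=
  ∀ ψ : A →L[ℂ] ℂ, Pos ψ → Pos (φ - ψ) → ∀ ε : ℝ, 0 < ε → ∃ d : ℝ, 0 < d ∧ ∀ K₀ : ℕ, ∃ K ≥ K₀,
    d * K ≤ (((Icc 1 K).filter fun h => ‖ψ ((α ^ h) x) - ψ x‖ < ε).card : ℝ)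

variable {α}

lemma inv_pow {φ : A →L[ℂ] ℂ} (h : ∀ a, φ (α a) = φ a) (n : ℕ) (a : A) : φ ((α ^ n) a) = φ a := by
  induction n with
  | zero => rfl
  | succ n ih =>
    rw [pow_succ']
    show φ (α ((α ^ n) a)) = _
    rw [h, ih]

/-- composition with an automorphism -/
def cmp (ψ : A →L[ℂ] ℂ) (n : ℕ) : A →L[ℂ] ℂ :=
  LinearMap.mkContinuous
    { toFun := fun a => ψ ((α ^ n) a)
      map_add' := fun a b => by rw [map_add, map_add]
      map_smul' := fun c a => by rw [map_smul, map_smul]; rfl } ‖ψ‖ (fun a => by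
      show ‖ψ ((α ^ n) a)‖ ≤ _
      refine (ψ.le_opNorm _).trans (le_of_eq ?_)
      rw [norm_pow_apply])

lemma cmp_apply (ψ : A →L[ℂ] ℂ) (n : ℕ) (a : A) : cmp (α := α) ψ n a = ψ ((α ^ n) a) := rfl

/-- **Recurrence** for sums of pure functionals -/
theorem rec_of_atomic {φ : A →L[ℂ] ℂ} (h : AtomicF φ) (hinv : ∀ a, φ (α a) = φ a) (x : A) : RecF α φ x := by
  classical
  intro ψ hψ hψφ ε hε
  obtain ⟨M, col, hcol⟩ := colour (gnsAll A) h (ε / (2 * (‖x‖ + 1))) (by positivity)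
  have hp : ∀ n, Pos (cmp (α := α) ψ n) := by
    intro n a
    rw [cmp_apply, map_mul, map_star]
    exact hψ _
  have hq : ∀ n, Pos (φ - cmp (α := α) ψ n) := by
    intro n a
    rw [sub_apply, cmp_apply, ← inv_pow hinv n (star a * a), ← sub_apply, map_mul, map_star]
    exact hψφ _
  set c : ℕ → Fin M := fun n => col (cmp (α := α) ψ n) with hc
  have hM : 0 < M := Fin.pos (c 0)
  have key : ∀ h k : ℕ, c (h + k) = c h → ‖ψ ((α ^ k) x) - ψ x‖ < ε := by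
    intro h k hck
    obtain ⟨y, hy⟩ := EquivLike.surjective (α ^ h) x
    have h1 := hcol _ _ (hp (h + k)) (hq (h + k)) (hp h) (hq h) hck y
    rw [cmp_apply, cmp_apply, add_comm, pow_add] at h1
    have h2 : ((α ^ k * α ^ h : A ≃⋆ₐ[ℂ] A)) y = (α ^ k) x := by
      show (α ^ k) ((α ^ h) y) = _
      rw [hy]
    rw [h2, hy] at h1
    have h3 : ‖y‖ = ‖x‖ := by rw [← hy, norm_pow_apply]
    rw [h3] at h1
    refine h1.trans_lt ?_
    rw [div_mul_eq_mul_div, div_lt_iff₀ (by positivity)]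
    nlinarith [norm_nonneg x]
  -- the last first occurrence of a colour
  obtain ⟨h₀, hh₀⟩ : ∃ h₀ : ℕ, ∀ i : Fin M, (∃ n, c n = i) → ∃ n ≤ h₀, c n = i := by
    have h1 : ∀ i : Fin M, ∃ n₀ : ℕ, (∃ n, c n = i) → c n₀ = i := by
      intro i
      by_cases h2 : ∃ n, c n = i
      · obtain ⟨n, hn⟩ := h2
        exact ⟨n, fun _ => hn⟩
      · exact ⟨0, fun h3 => absurd h3 h2⟩
    choose n₀ hn₀ using h1
    exact ⟨∑ i, n₀ i, fun i hi => ⟨n₀ i, single_le_sum (f := n₀) (fun _ _ => Nat.zero_le _) (mem_univ i), hn₀ i hi⟩⟩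
  refine ⟨1 / (2 * M), by positivity, fun K₀ => ⟨h₀ + (h₀ + K₀), by omega, ?_⟩⟩
  set L : ℕ := h₀ + K₀ with hL
  -- pigeonhole
  have hsum : ∑ i : Fin M, (((Ioc h₀ (h₀ + L)).filter fun n => c n = i).card) = L := by
    have := card_eq_sum_card_fiberwise (s := Ioc h₀ (h₀ + L)) (t := univ) (f := c) (fun _ _ => mem_coe.2 (mem_univ _))
    rw [← this, Nat.card_Ioc]
    omega
  obtain ⟨i, hi⟩ : ∃ i : Fin M, (L : ℝ) / M ≤ (((Ioc h₀ (h₀ + L)).filter fun n => c n = i).card : ℝ) := by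
    by_contra hcon
    push Not at hcon
    have h1 : ∑ i : Fin M, ((((Ioc h₀ (h₀ + L)).filter fun n => c n = i).card : ℕ) : ℝ) < ∑ _i : Fin M, (L : ℝ) / M :=
      sum_lt_sum_of_nonempty ⟨⟨0, hM⟩, mem_univ _⟩ fun i _ => hcon i
    rw [sum_const, card_univ, Fintype.card_fin, nsmul_eq_mul, mul_div_cancel₀ _ (by positivity : (M : ℝ) ≠ 0)] at h1
    rw [← Nat.cast_sum, hsum] at h1
    exact lt_irrefl _ h1
  rcases Nat.eq_zero_or_pos L with hL0 | hL0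
  · have : h₀ + L = 0 := by omega
    rw [this]
    simp
  have hLr : (0 : ℝ) < L := by exact_mod_cast hL0
  have hne : ∃ n, c n = i := by
    have h1 : (0 : ℝ) < (((Ioc h₀ (h₀ + L)).filter fun n => c n = i).card : ℝ) := lt_of_lt_of_le (by positivity) hi
    have h2 : 0 < ((Ioc h₀ (h₀ + L)).filter fun n => c n = i).card := by exact_mod_cast h1
    obtain ⟨n, hn⟩ := card_pos.1 h2
    exact ⟨n, (mem_filter.1 hn).2⟩
  obtain ⟨n₁, hn1, hn2⟩ := hh₀ i hne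
  have hinj : ((Ioc h₀ (h₀ + L)).filter fun n => c n = i).card ≤
      ((Icc 1 (h₀ + L)).filter fun h => ‖ψ ((α ^ h) x) - ψ x‖ < ε).card := by
    apply card_le_card_of_injOn (fun n => n - n₁)
    · intro n hn
      rw [coe_filter, Set.mem_ofPred_eq, mem_Ioc] at hn
      rw [coe_filter, Set.mem_ofPred_eq, mem_Icc]
      refine ⟨⟨by show 1 ≤ n - n₁; omega, by show n - n₁ ≤ _; omega⟩, key n₁ _ ?_⟩
      rw [Nat.add_sub_cancel' (by omega), hn.2, hn2]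
    · intro n hn n' hn' he
      rw [coe_filter, Set.mem_ofPred_eq, mem_Ioc] at hn hn'
      simp only at he
      omega
  calc 1 / (2 * (M : ℝ)) * ((h₀ + L : ℕ) : ℝ) ≤ 1 / (2 * (M : ℝ)) * (2 * L) := by
        apply mul_le_mul_of_nonneg_left _ (by positivity)
        have : h₀ + L ≤ 2 * L := by omega
        exact_mod_cast this
    _ = (L : ℝ) / M := by field_simp
    _ ≤ _ := hi
    _ ≤ _ := by exact_mod_cast hinj

end

end Pool.Agent.P8H72.SC
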